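import Pool.Agent.W5h83.GT.Sum
import Pool.Agent.R781.VS.Growth

/-!
# Vanishing above the middle for the class `AS`
-/

set_option autoImplicit false

namespace Pool.Agent.W5h83.GT

open Pool.Agent.W907.SG Pool.Agent.W907.SM
open Pool.Agent.TH652.Above
open Pool.Agent.R781.VS (Q_of_AR Q_split growth_of_above)

theorem Q_of_AS {n : ℕ} {V : Type} {G : SimpleGraph V} (h : AS n G) : Q n G := by
  induction h with
  | ar G h => exact Q_of_AR h
  | sum G A B hAB hno _ _ ih1 ih2 => exact Q_sum G A B hAB hno ih1 ih2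
  | split G s t hst hsq _ _ _ _ ih1 ih2 ih3 ih4 => exact Q_split G s t hst hsq ih1 ih2 ih3 ih4
  | full G A _ ih => exact Q_emb G _ (SimpleGraph.Embedding.induce A) ih
  | join G H _ _ ih1 ih2 => exact Q_join G H ih1 ih2
  | succ G _ ih => exact ⟨ih.1, fun A i hi => ih.2 A i (by omega)⟩
  | pred G _ ih => exact ⟨ih.1, fun A i hi => ih.2 A i (by omega)⟩
  | del G s t hst _ _ ih1 ih2 => exact Q_del G s t hst ih1 ih2
  | loc G B hB _ ih => exact Q_loc G B hB ih
  | vert G v _ _ ih1 ih2 => exact Q_vert G v ih1 ih2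
  | glue G A B hAB hno _ _ _ ih1 ih2 ih3 => exact Q_glue G A B hAB hno ih1 ih2 ih3
  | iso G H e _ ih => exact Q_emb G H e.some.symm.toEmbedding ih

/-- vanishing above the middle -/
theorem above_AS {n : ℕ} {V : Type} [Fintype V] [LinearOrder V] {G : SimpleGraph V} (h : AS n G) (i : ℕ)
    (hi : n < 2 * i) : L2Van G i :=
  (lv_univ G i).1 ((Q_of_AS h).2 Set.univ i hi) _ _

/-- the Singer conjecture for homology spheres in the class -/
theorem singer_AS {n : ℕ} {V : Type} [Fintype V] [LinearOrder V] {G : SimpleGraph V} (hS : HSph n G)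
    (h : AS n G) (i : ℕ) (hi : 2 * i ≠ n) : L2Van G i :=
  singer_of_above hS (fun i hi => above_AS h i hi) i hi

/-- gluing, for `L2Van` -/
theorem l2_sum {V : Type} [Fintype V] [LinearOrder V] (G : SimpleGraph V) (A B : Set V) [Fintype A] [Fintype B]
    [LinearOrder (Option A)] [LinearOrder (Option B)] (hAB : A ∪ B = Set.univ)
    (hno : ∀ a ∈ A, a ∉ B → ∀ b ∈ B, b ∉ A → ¬ G.Adj a b) (i : ℕ)
    (h1 : L2Van (G.induce A) i) (h2 : L2Van (G.induce B) i)
    (h3 : L2Van (cone (G.induce A) {a | (a : V) ∈ B}) i) (h4 : L2Van (cone (G.induce B) {b | (b : V) ∈ A}) i) :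
    L2Van G i := by
  have e : ∀ {U : Type} [fU : Fintype U] [oU : LinearOrder U] {K : SimpleGraph U}, L2Van K i → LV K i :=
    fun {U} fU oU {K} h f o => ord U U fU f oU o K K i ⟨SimpleGraph.Iso.refl⟩ h
  exact lv_sum G A B hAB hno i (e h1) (e h2) (e h3) (e h4) _ _

end Pool.Agent.W5h83.GT
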