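import Pool.Agent.W5h83.GT.Stm

/-!
# Antiinvariant functions with values in a homogeneous subspace
-/

set_option autoImplicit false

namespace Pool.Agent.W5h83.GT

open Module Pool.Agent.W907.SG

section
open Classical

variable {ι E F : Type} [Fintype ι] [Fintype E] [Fintype F] {a : E → F → F} {c : ι → E}

omit [Fintype ι] in
/-- gluing colour components of elements of a homogeneous subspace -/
theorem glue_mem {V : Submodule ℝ (ι → ℝ)} (hV : Hom c V) (x : E → ι → ℝ) (hx : ∀ e, x e ∈ V) :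
    (fun j => x (c j) j) ∈ V := by
  have h1 : (fun j => x (c j) j) = ∑ e : E, (fun i => if c i = e then x e i else 0) := by
    funext j
    rw [Finset.sum_apply]
    rw [Finset.sum_ite_eq Finset.univ (c j) (fun e => x e j), if_pos (Finset.mem_univ _)]
  rw [h1]
  exact V.sum_mem fun e _ => hV _ (hx e) e

/-- invariant functions -/
def Sy (a : E → F → F) (c : ι → E) : Submodule ℝ (F × ι → ℝ) where
  carrier := {w | ∀ f j, w (a (c j) f, j) = w (f, j)}
  add_mem' {x y} h h' f j := by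
    show x (a (c j) f, j) + y (a (c j) f, j) = x (f, j) + y (f, j)
    rw [h f j, h' f j]
  zero_mem' f j := by simp
  smul_mem' r x h f j := by
    show r * x (a (c j) f, j) = r * x (f, j)
    rw [h f j]

/-- the sign -/
noncomputable def ssg (sg : E → F → Bool) (c : ι → E) (z : F × ι) : ℝ := if sg (c z.2) z.1 then 1 else -1

omit [Fintype ι] [Fintype E] [Fintype F] in
theorem ssg_sq (sg : E → F → Bool) (c : ι → E) (z : F × ι) : ssg sg c z * ssg sg c z = 1 := by
  unfold ssg
  split_ifs <;> norm_num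

omit [Fintype ι] [Fintype E] [Fintype F] in
theorem ssg_a (sg : E → F → Bool) (h : ∀ e f, sg e (a e f) = !(sg e f)) (f : F) (j : ι) :
    ssg sg c (a (c j) f, j) = - ssg sg c (f, j) := by
  unfold ssg
  simp only [h]
  cases sg (c j) f <;> simp

/-- multiplication with the sign -/
noncomputable def msg (sg : E → F → Bool) (c : ι → E) : (F × ι → ℝ) →ₗ[ℝ] (F × ι → ℝ) where
  toFun w z := ssg sg c z * w z
  map_add' x y := by
    funext z
    simp only [Pi.add_apply]
    ring
  map_smul' r x := by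
    funext z
    simp only [Pi.smul_apply, smul_eq_mul, RingHom.id_apply]
    ring

omit [Fintype ι] [Fintype E] [Fintype F] in
theorem msg_msg (sg : E → F → Bool) (c : ι → E) (w : F × ι → ℝ) : msg sg c (msg sg c w) = w := by
  funext z
  show ssg sg c z * (ssg sg c z * w z) = w z
  rw [← mul_assoc, ssg_sq, one_mul]

omit [Fintype ι] [Fintype F] in
theorem msg_PV (sg : E → F → Bool) {V : Submodule ℝ (ι → ℝ)} (hV : Hom c V) {w : F × ι → ℝ}
    (hw : w ∈ PV F V) : msg sg c w ∈ PV F V := by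
  intro f
  exact glue_mem hV (fun e j => (if sg e f then (1 : ℝ) else -1) * w (f, j)) fun e =>
    V.smul_mem _ (hw f)

omit [Fintype ι] [Fintype F] in
theorem t_PV {V : Submodule ℝ (ι → ℝ)} (hV : Hom c V) {w : F × ι → ℝ}
    (hw : w ∈ PV F V) : (fun z : F × ι => w (a (c z.2) z.1, z.2)) ∈ PV F V := by
  intro f
  exact glue_mem hV (fun e j => w (a e f, j)) fun e => hw _

end

/-- functions with values in `V` -/
def pvEquiv (F : Type) {ι : Type} (V : Submodule ℝ (ι → ℝ)) : PV F V ≃ₗ[ℝ] (F → V) where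
  toFun w f := ⟨fun j => w.1 (f, j), w.2 f⟩
  map_add' _ _ := rfl
  map_smul' _ _ := rfl
  invFun u := ⟨fun z => (u z.1).1 z.2, fun f => (u f).2⟩
  left_inv _ := rfl
  right_inv _ := rfl

theorem half : S_HALF := by
  intro ι E F _ _ _ a c sg ha hsg V hV
  have h1 : finrank ℝ (PV F V) = Fintype.card F * finrank ℝ V := by
    rw [(pvEquiv F V).finrank_eq, finrank_pi_fintype, Finset.sum_const, Finset.card_univ,
      smul_eq_mul]
  refine ⟨h1, ?_⟩
  have hm1 : ∀ w ∈ PV F V ⊓ An a c, msg sg c w ∈ PV F V ⊓ Sy a c := by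
    rintro w ⟨hw1, hw2⟩
    refine ⟨msg_PV sg hV hw1, fun f j => ?_⟩
    show ssg sg c (a (c j) f, j) * w (a (c j) f, j) = ssg sg c (f, j) * w (f, j)
    rw [ssg_a sg hsg, hw2 f j]
    ring
  have hm2 : ∀ w ∈ PV F V ⊓ Sy a c, msg sg c w ∈ PV F V ⊓ An a c := by
    rintro w ⟨hw1, hw2⟩
    refine ⟨msg_PV sg hV hw1, fun f j => ?_⟩
    show ssg sg c (a (c j) f, j) * w (a (c j) f, j) = - (ssg sg c (f, j) * w (f, j))
    rw [ssg_a sg hsg, hw2 f j]
    ring
  have e1 : finrank ℝ ↥(PV F V ⊓ An a c) = finrank ℝ ↥(PV F V ⊓ Sy a c) := by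
    refine LinearEquiv.finrank_eq (LinearEquiv.ofLinearMap
      (((msg sg c).domRestrict _).codRestrict _ fun w => hm1 w.1 w.2)
      (((msg sg c).domRestrict _).codRestrict _ fun w => hm2 w.1 w.2) ?_ ?_)
    · refine LinearMap.ext fun w => Subtype.ext ?_
      exact msg_msg sg c w.1
    · refine LinearMap.ext fun w => Subtype.ext ?_
      exact msg_msg sg c w.1
  have e2 : (PV F V ⊓ An a c) ⊔ (PV F V ⊓ Sy a c) = PV F V := by
    refine le_antisymm (sup_le inf_le_left inf_le_left) fun w hw => ?_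
    have ht := t_PV (a := a) hV hw
    set t : F × ι → ℝ := fun z => w (a (c z.2) z.1, z.2) with htd
    have htt : ∀ f j, t (a (c j) f, j) = w (f, j) := by
      intro f j
      show w (a (c j) (a (c j) f), j) = w (f, j)
      rw [ha]
    have h2 : w = (1 / 2 : ℝ) • (w - t) + (1 / 2 : ℝ) • (w + t) := by
      module
    rw [h2]
    refine Submodule.add_mem_sup ⟨(PV F V).smul_mem _ ((PV F V).sub_mem hw ht), fun f j => ?_⟩
      ⟨(PV F V).smul_mem _ ((PV F V).add_mem hw ht), fun f j => ?_⟩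
    · show (1 / 2 : ℝ) * (w (a (c j) f, j) - t (a (c j) f, j)) = - ((1 / 2 : ℝ) * (w (f, j) - t (f, j)))
      rw [htt, htd]
      ring
    · show (1 / 2 : ℝ) * (w (a (c j) f, j) + t (a (c j) f, j)) = (1 / 2 : ℝ) * (w (f, j) + t (f, j))
      rw [htt, htd]
      ring
  have e3 : (PV F V ⊓ An a c) ⊓ (PV F V ⊓ Sy a c) = ⊥ := by
    rw [eq_bot_iff]
    rintro w ⟨⟨_, h2⟩, ⟨_, h3⟩⟩
    rw [Submodule.mem_bot]
    funext ⟨f, j⟩
    have h4 := h2 f j
    rw [h3 f j] at h4
    show w (f, j) = 0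
    linarith
  have e4 := Submodule.finrank_sup_add_finrank_inf_eq (PV F V ⊓ An a c) (PV F V ⊓ Sy a c)
  rw [e2, e3, finrank_bot, ← e1, h1] at e4
  omega

end Pool.Agent.W5h83.GT
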