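import Pool.Agent.W5h83.GT.NumS

/-!
# Nullities of local operators on finite sets and the `ℓ²` dimension of the kernel (KAZN)

Written by helper74 for helper83: numerical form of `Pool.Agent.W15.SG.kaz`.
-/

set_option autoImplicit false

namespace Pool.Agent.W5h83.GT

open Module Pool.Agent.W907.SG Pool.Agent.W15.SG Filter Topology
open scoped ENNReal

noncomputable section

section limit

variable {Γ 𝓣 𝓣' J : Type} [Group Γ] [Fintype 𝓣] [Fintype 𝓣'] [Fintype J]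
  (γ : J → Γ) (b : J → 𝓣' → 𝓣 → ℤ)

open Classical in
theorem limitn {C : ℝ} (hC : 0 < C)
    (hb : ∀ v : Γ × 𝓣' →₀ ℝ, ip (opBt γ b (fun g h : Γ => g * h) v)
      (opBt γ b (fun g h : Γ => g * h) v) ≤ C * ip v v)
    (τ₀ : 𝓣) {ε : ℝ} (hε : 0 < ε) : ∃ m₀ : ℕ, ∀ m ≥ m₀,
      ip ((opT γ b C (fun g h : Γ => g * h) ^ m) (Finsupp.single (1, τ₀) 1))
        ((opT γ b C (fun g h : Γ => g * h) ^ m) (Finsupp.single (1, τ₀) 1)) ≤
      1 - Metric.infDist (lp.single 2 ((1 : Γ), τ₀) (1 : ℝ) : lp (fun _ : Γ × 𝓣 => ℝ) 2)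
        (KerL γ b) ^ 2 + ε := by
  have h1 : ∀ x : Γ, x * 1 = x := mul_one
  have h2 : ∀ x g h : Γ, x * (g * h) = x * g * h := fun x g h => (mul_assoc x g h).symm
  set T := opT γ b C (fun g h : Γ => g * h) with hT
  set B := opB γ b (fun g h : Γ => g * h) with hB
  set e : Γ × 𝓣 →₀ ℝ := Finsupp.single (1, τ₀) 1 with he
  let a : ℕ → ℝ := fun m => ip ((T ^ m) e) ((T ^ m) e)
  have hstep : ∀ m, a (m + 1) ≤ a m - C⁻¹ * ip (B ((T ^ m) e)) (B ((T ^ m) e)) := by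
    intro m
    have := decay γ b (act := fun g h : Γ => g * h) h1 h2 hC hb ((T ^ m) e)
    simp only [a]
    rw [pow_succ', Module.End.mul_apply]
    exact this
  have hanti : Antitone a := antitone_nat_of_succ_le fun m => by
    have := hstep m
    have h3 : 0 ≤ C⁻¹ * ip (B ((T ^ m) e)) (B ((T ^ m) e)) :=
      mul_nonneg (inv_pos.2 hC).le (nrm_nonneg _)
    linarith
  have ha0 : ∀ m, 0 ≤ a m := fun m => nrm_nonneg _
  have haone : ∀ m, a m ≤ 1 := by
    intro m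
    refine (hanti (Nat.zero_le m)).trans (le_of_eq ?_)
    simp only [a, pow_zero, Module.End.one_apply]
    rw [he, ip_single_left]
    simp
  obtain ⟨l, hl⟩ : ∃ l, Tendsto a atTop (𝓝 l) :=
    ⟨_, tendsto_atTop_ciInf hanti ⟨0, by rintro _ ⟨m, rfl⟩; exact ha0 m⟩⟩
  have hB0 : Tendsto (fun m => ip (B ((T ^ m) e)) (B ((T ^ m) e))) atTop (𝓝 0) := by
    have h3 : Tendsto (fun m => C * (a m - a (m + 1))) atTop (𝓝 0) := by
      have := (hl.sub (hl.comp (tendsto_add_atTop_nat 1))).const_mul C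
      simpa using this
    refine squeeze_zero (fun m => nrm_nonneg _) (fun m => ?_) h3
    have := hstep m
    have h4 : C⁻¹ * ip (B ((T ^ m) e)) (B ((T ^ m) e)) ≤ a m - a (m + 1) := by linarith
    rwa [inv_mul_le_iff₀ hC] at h4
  -- ultrafilter limit of the even iterates
  let U : Ultrafilter ℕ := Filter.hyperfilter ℕ
  have hU : (U : Filter ℕ) ≤ atTop := Nat.hyperfilter_le_atTop
  have hlim : ∀ i : Γ × 𝓣, ∃ w : ℝ, Tendsto (fun m => ((T ^ (2 * m)) e) i) U (𝓝 w) := by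
    intro i
    have hc : IsCompact (Set.Icc (-1 : ℝ) 1) := isCompact_Icc
    obtain ⟨w, -, hw⟩ := hc.ultrafilter_le_nhds (U.map (fun m => ((T ^ (2 * m)) e) i)) (by
      rw [le_principal_iff]
      refine Filter.mem_map.2 (Filter.Eventually.of_forall fun m => ?_)
      have h5 := (sq_le_nrm ((T ^ (2 * m)) e) i).trans (haone (2 * m))
      have h6 : |((T ^ (2 * m)) e) i| ≤ 1 := abs_le_one_iff_mul_self_le_one.2 (by nlinarith)
      exact abs_le.1 h6)
    exact ⟨w, hw⟩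
  choose w hw using hlim
  have hmul : Tendsto (fun m : ℕ => 2 * m) U atTop :=
    (tendsto_id.const_mul_atTop' (by norm_num : 0 < 2)).mono_left hU
  have hal : Tendsto (fun m => a (2 * m)) U (𝓝 l) := hl.comp hmul
  have hfinl : ∀ F : Finset (Γ × 𝓣), ∑ i ∈ F, (w i) ^ 2 ≤ l := by
    intro F
    have h6 : Tendsto (fun m => ∑ i ∈ F, (((T ^ (2 * m)) e) i) ^ 2) U (𝓝 (∑ i ∈ F, (w i) ^ 2)) :=
      tendsto_finsetSum _ fun i _ => (hw i).pow 2
    exact le_of_tendsto_of_tendsto' h6 hal fun m => sum_sq_le _ F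
  have hsummable : Summable fun x : Γ × 𝓣 => (w x) ^ 2 :=
    summable_of_sum_le (c := l) (fun _ => sq_nonneg _) hfinl
  have htsum : ∑' x : Γ × 𝓣, (w x) ^ 2 ≤ l := hsummable.tsum_le_of_sum_le hfinl
  have hzero : ∀ g τ', ∑ j, ∑ τ, (b j τ' τ : ℝ) * w (g * γ j, τ) = 0 := by
    intro g τ'
    have h7 : Tendsto (fun m => ∑ j, ∑ τ, (b j τ' τ : ℝ) * ((T ^ (2 * m)) e) (g * γ j, τ)) U
        (𝓝 (∑ j, ∑ τ, (b j τ' τ : ℝ) * w (g * γ j, τ))) :=
      tendsto_finsetSum _ fun j _ => tendsto_finsetSum _ fun τ _ => (hw _).const_mul _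
    have h8 : Tendsto (fun m => ∑ j, ∑ τ, (b j τ' τ : ℝ) * ((T ^ (2 * m)) e) (g * γ j, τ)) U
        (𝓝 0) := by
      have h9 : ∀ m, ∑ j, ∑ τ, (b j τ' τ : ℝ) * ((T ^ (2 * m)) e) (g * γ j, τ) =
          B ((T ^ (2 * m)) e) (g, τ') := fun m =>
        (opB_eval γ b (act := fun g h : Γ => g * h) h1 h2 _ g τ').symm
      simp only [h9]
      have h10 : Tendsto (fun m => (B ((T ^ (2 * m)) e) (g, τ')) ^ 2) U (𝓝 0) :=
        squeeze_zero (fun m => sq_nonneg _) (fun m => sq_le_nrm _ _) (hB0.comp hmul)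
      rw [tendsto_zero_iff_abs_tendsto_zero]
      have h11 := h10.sqrt
      rw [Real.sqrt_zero] at h11
      refine h11.congr fun m => ?_
      simp [Real.sqrt_sq_eq_abs]
    exact tendsto_nhds_unique h7 h8
  have h13 : ∀ m, ((T ^ (2 * m)) e) (1, τ₀) = a m := by
    intro m
    have h14 : ip ((T ^ (2 * m)) e) e = ((T ^ (2 * m)) e) (1, τ₀) := by
      conv_lhs => rw [show e = Finsupp.single (1, τ₀) 1 from he]
      rw [ip_single_right, one_mul, ← he]
    rw [← h14, two_mul, pow_add, Module.End.mul_apply]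
    exact adjTpow γ b (act := fun g h : Γ => g * h) h1 h2 C m _ _
  have hw1 : w (1, τ₀) = l := by
    have h12 := hw (1, τ₀)
    simp only [h13] at h12
    exact tendsto_nhds_unique h12 (hl.mono_left hU)
  -- the limit as an element of `ℓ²`
  have hmem : Memℓp (E := fun _ : Γ × 𝓣 => ℝ) w 2 := by
    refine memℓp_gen ?_
    simpa using hsummable
  let W : lp (fun _ : Γ × 𝓣 => ℝ) 2 := ⟨w, hmem⟩
  have hWK : W ∈ KerL γ b := hzero
  have hWn : ‖W‖ ^ 2 ≤ l := by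
    have h15 := lp.norm_rpow_eq_tsum (p := 2) (by norm_num) W
    have h16 : ‖W‖ ^ 2 = ∑' x : Γ × 𝓣, (w x) ^ 2 := by
      simpa [W] using h15
    rw [h16]
    exact htsum
  set δ : lp (fun _ : Γ × 𝓣 => ℝ) 2 := lp.single 2 ((1 : Γ), τ₀) (1 : ℝ) with hδ
  have hin : inner ℝ δ W = l := by
    rw [hδ, lp.inner_single_left]
    simp [W, hw1]
  have hδn : ‖δ‖ = 1 := by
    rw [hδ, lp.norm_single (by norm_num)]
    simp
  have hd : Metric.infDist δ (KerL γ b) ^ 2 ≤ 1 - l := by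
    have h17 : Metric.infDist δ (KerL γ b) ≤ ‖δ - W‖ := by
      rw [← dist_eq_norm]
      exact Metric.infDist_le_dist_of_mem hWK
    have h18 : ‖δ - W‖ ^ 2 = ‖δ‖ ^ 2 - 2 * inner ℝ δ W + ‖W‖ ^ 2 := norm_sub_sq_real _ _
    have h19 : Metric.infDist δ (KerL γ b) ^ 2 ≤ ‖δ - W‖ ^ 2 :=
      pow_le_pow_left₀ Metric.infDist_nonneg h17 2
    rw [h18, hin, hδn] at h19
    linarith
  have hlt : l < 1 - Metric.infDist δ (KerL γ b) ^ 2 + ε := by linarith
  obtain ⟨m₀, hm₀⟩ := (hl.eventually (gt_mem_nhds hlt)).exists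
  exact ⟨m₀, fun m hm => (hanti hm).trans hm₀.le⟩

end limit

theorem kazn : S_KAZN := by
  classical
  intro Γ 𝓣 𝓣' J _ _ _ _ γ b ε₀ hε₀
  have h1 : ∀ x : Γ, x * 1 = x := mul_one
  have h2 : ∀ x g h : Γ, x * (g * h) = x * g * h := fun x g h => (mul_assoc x g h).symm
  obtain ⟨C, hC, hb⟩ := opBt_bound γ b (act := fun g h : Γ => g * h) h1 h2
  set ε : ℝ := ε₀ / (Fintype.card 𝓣 + 1) with hε
  have hε0 : 0 < ε := by positivity
  choose m₀ hm₀ using fun τ₀ : 𝓣 => limitn γ b hC hb τ₀ hε0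
  set m := Finset.univ.sup m₀ with hm
  set T := opT γ b C (fun g h : Γ => g * h) with hT
  have hmm := fun τ => hm₀ τ m (Finset.le_sup (Finset.mem_univ τ))
  set A : Finset Γ := Finset.univ.biUnion fun τ : 𝓣 =>
    ((T ^ m) (Finsupp.single ((1 : Γ), τ) (1 : ℝ))).support.image Prod.fst with hA
  refine ⟨((A ×ˢ A).image fun p => p.1 * p.2⁻¹).erase 1, Finset.notMem_erase _ _, ?_⟩
  intro X _ act g1 g2 gE K hK
  have hfin := finite_level γ b g1 g2 C m K (fun c hc => (hK c).1 hc)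
  have hloc : ∀ x τ, ip ((opT γ b C act ^ m) (Finsupp.single (x, τ) 1))
      ((opT γ b C act ^ m) (Finsupp.single (x, τ) 1)) = 
      ip ((T ^ m) (Finsupp.single ((1 : Γ), τ) (1 : ℝ)))
        ((T ^ m) (Finsupp.single ((1 : Γ), τ) (1 : ℝ))) := by
    intro x τ
    have e1 : (Finsupp.single (x, τ) (1 : ℝ) : X × 𝓣 →₀ ℝ) =
        Finsupp.mapDomain (orb x act) (Finsupp.single ((1 : Γ), τ) (1 : ℝ)) := by
      rw [Finsupp.mapDomain_single]
      simp [orb, g1]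
    rw [e1, ← nat_T γ b g2, nrm_mapDomain]
    · rintro ⟨g, σ⟩ hg ⟨h, σ'⟩ hh hgh
      simp only [orb, Prod.mk.injEq] at hgh
      obtain ⟨hgh1, rfl⟩ := hgh
      by_contra hne
      have hne' : g ≠ h := fun h3 => hne (by rw [h3])
      have hgA : g ∈ A := Finset.mem_biUnion.2 ⟨τ, Finset.mem_univ _, Finset.mem_image.2 ⟨_, hg, rfl⟩⟩
      have hhA : h ∈ A := Finset.mem_biUnion.2 ⟨τ, Finset.mem_univ _, Finset.mem_image.2 ⟨_, hh, rfl⟩⟩
      have hE : g * h⁻¹ ∈ ((A ×ˢ A).image fun p => p.1 * p.2⁻¹).erase 1 := by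
        rw [Finset.mem_erase]
        refine ⟨fun h4 => hne' (mul_inv_eq_one.1 h4), Finset.mem_image.2 ⟨(g, h), ?_, rfl⟩⟩
        exact Finset.mem_product.2 ⟨hgA, hhA⟩
      apply gE _ hE x
      rw [g2, hgh1, ← g2, mul_inv_cancel, g1]
  have h5 : (finrank ℝ K : ℝ) ≤ ∑ _x : X, (dimL γ b + Fintype.card 𝓣 * ε) := by
    refine hfin.trans (Finset.sum_le_sum fun x _ => ?_)
    have h6 : dimL γ b + Fintype.card 𝓣 * ε = ∑ τ : 𝓣,
        (1 - Metric.infDist (lp.single 2 ((1 : Γ), τ) (1 : ℝ) : lp (fun _ : Γ × 𝓣 => ℝ) 2)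
          (KerL γ b) ^ 2 + ε) := by
      rw [Finset.sum_add_distrib, Finset.sum_const, Finset.card_univ, nsmul_eq_mul]
      rfl
    rw [h6]
    refine Finset.sum_le_sum fun τ _ => ?_
    rw [hloc]
    exact hmm τ
  rw [Finset.sum_const, Finset.card_univ, nsmul_eq_mul] at h5
  have h7 : (Fintype.card 𝓣 : ℝ) * ε ≤ ε₀ := by
    rw [hε, mul_div_assoc', div_le_iff₀ (by positivity)]
    nlinarith
  have h8 : (Fintype.card X : ℝ) * (dimL γ b + Fintype.card 𝓣 * ε) ≤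
      Fintype.card X * (dimL γ b + ε₀) :=
    mul_le_mul_of_nonneg_left (by linarith) (by positivity)
  linarith [mul_comm (Fintype.card X : ℝ) (dimL γ b + ε₀)]

end

end Pool.Agent.W5h83.GT
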