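import Pool.Agent.W5h83.GT.NumS
import Pool.Agent.W21.SGL.Main

/-!
# The numerical form of the Lück inequality
-/

set_option autoImplicit false

namespace Pool.Agent.W5h83.GT.Lu

open Module Pool.Agent.W907.SG Pool.Agent.W21.SGL Matrix Kronecker Filter Topology
open scoped ENNReal

section

variable {Γ 𝓣 : Type} [Group Γ] [Fintype 𝓣] [DecidableEq 𝓣]

/-- the row sums of squares of the coefficients -/
noncomputable def srow (a : MonoidAlgebra (Matrix 𝓣 𝓣 ℝ) Γ) (τ : 𝓣) : ℝ :=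
  ∑ σ, ∑ h ∈ a.coeff.support, (a.coeff h τ σ) ^ 2

omit [Group Γ] in
theorem srow_nonneg (a : MonoidAlgebra (Matrix 𝓣 𝓣 ℝ) Γ) (τ : 𝓣) : 0 ≤ srow a τ :=
  Finset.sum_nonneg fun _ _ => Finset.sum_nonneg fun _ _ => sq_nonneg _

/-- Cauchy-Schwarz, row by row -/
theorem cs_row (a : MonoidAlgebra (Matrix 𝓣 𝓣 ℝ) Γ) (c : lp (fun _ : Γ × 𝓣 => ℝ) 2) (x : Γ)
    (τ : 𝓣) :
    (PhiG a (fun g σ => (c : Γ × 𝓣 → ℝ) (g, σ)) x τ) ^ 2 ≤ srow a τ * ‖c‖ ^ 2 := by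
  classical
  rw [PhiG_apply, ← Finset.sum_product']
  refine (Finset.sum_mul_sq_le_sq_mul_sq _ _ _).trans ?_
  have h1 : ∑ i ∈ a.coeff.support ×ˢ (Finset.univ : Finset 𝓣), (a.coeff i.1 τ i.2) ^ 2 =
      srow a τ := by
    rw [Finset.sum_product' (f := fun h σ => (a.coeff h τ σ) ^ 2), Finset.sum_comm]
    rfl
  have h2 : ∑ i ∈ a.coeff.support ×ˢ (Finset.univ : Finset 𝓣),
      ((c : Γ × 𝓣 → ℝ) (x * i.1, i.2)) ^ 2 ≤ ‖c‖ ^ 2 := by
    have hi : Function.Injective (fun i : Γ × 𝓣 => (x * i.1, i.2)) := by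
      rintro ⟨g, s⟩ ⟨g', s'⟩ h
      simp only [Prod.mk.injEq, mul_right_inj] at h
      rw [h.1, h.2]
    have h3 : ∑ i ∈ a.coeff.support ×ˢ (Finset.univ : Finset 𝓣),
        ((c : Γ × 𝓣 → ℝ) (x * i.1, i.2)) ^ 2 =
        ∑ j ∈ (a.coeff.support ×ˢ (Finset.univ : Finset 𝓣)).image
          (fun i : Γ × 𝓣 => (x * i.1, i.2)), ((c : Γ × 𝓣 → ℝ) j) ^ 2 := by
      rw [Finset.sum_image fun i _ j _ h => hi h]
    rw [h3]
    have h4 := lp.sum_rpow_le_norm_rpow (p := 2) (by norm_num) c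
      ((a.coeff.support ×ˢ (Finset.univ : Finset 𝓣)).image (fun i : Γ × 𝓣 => (x * i.1, i.2)))
    have h5 : ((2 : ℝ≥0∞).toReal) = ((2 : ℕ) : ℝ) := by norm_num
    simp only [h5, Real.rpow_natCast, Real.norm_eq_abs, sq_abs] at h4
    exact h4
  rw [h1]
  exact mul_le_mul_of_nonneg_left h2 (srow_nonneg a τ)

/-- the distance of a vector of the standard basis to the kernel -/
theorem one_sub_dist {𝓣' J : Type} [Fintype 𝓣'] [Fintype J] [DecidableEq (Γ × 𝓣)]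
    (γ : J → Γ) (b : J → 𝓣' → 𝓣 → ℤ) (m : ℕ) (τ : 𝓣) :
    1 - Metric.infDist (lp.single 2 ((1 : Γ), τ) (1 : ℝ) : lp (fun _ : Γ × 𝓣 => ℝ) 2)
      (KerL γ b) ^ 2 ≤ srow (TT γ b ^ m) τ := by
  set δ : lp (fun _ : Γ × 𝓣 => ℝ) 2 := lp.single 2 ((1 : Γ), τ) (1 : ℝ) with hδ
  set s := srow (TT γ b ^ m) τ with hs
  have hs0 : 0 ≤ s := srow_nonneg _ _
  have hD : ∀ c ∈ KerL γ b, 1 - s ≤ dist δ c ^ 2 := by
    intro c hc
    have h1 := cs_row (TT γ b ^ m) c 1 τ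
    rw [fixed γ b (fun g σ => (c : Γ × 𝓣 → ℝ) (g, σ)) hc m] at h1
    have h2 : ‖δ - c‖ ^ 2 = 1 - 2 * (c : Γ × 𝓣 → ℝ) (1, τ) + ‖c‖ ^ 2 := by
      rw [norm_sub_sq_real, hδ, lp.norm_single (by norm_num), lp.inner_single_left]
      simp
    rw [dist_eq_norm, h2]
    by_contra hlt
    have h3 : s + ‖c‖ ^ 2 < 2 * (c : Γ × 𝓣 → ℝ) (1, τ) := by linarith
    have h4 : 0 ≤ s + ‖c‖ ^ 2 := by positivity
    have h5 : (s + ‖c‖ ^ 2) ^ 2 < (2 * (c : Γ × 𝓣 → ℝ) (1, τ)) ^ 2 := by gcongr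
    have h6 : ((c : Γ × 𝓣 → ℝ) (1, τ)) ^ 2 ≤ s * ‖c‖ ^ 2 := h1
    nlinarith [sq_nonneg (s - ‖c‖ ^ 2)]
  rcases le_total (1 - s) 0 with h | h
  · have := sq_nonneg (Metric.infDist δ (KerL γ b))
    linarith
  · have hne : (KerL γ b).Nonempty := ⟨0, by intro g τ'; simp⟩
    have h1 : Real.sqrt (1 - s) ≤ Metric.infDist δ (KerL γ b) := by
      rw [Metric.le_infDist hne]
      intro c hc
      exact Real.sqrt_le_iff.2 ⟨dist_nonneg, hD c hc⟩
    have h2 : 1 - s ≤ Metric.infDist δ (KerL γ b) ^ 2 := by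
      rw [← Real.sq_sqrt h]
      gcongr
    linarith

end

/-- the bound for the coefficients of `T ^ m` -/
theorem S_leN {Γ 𝓣 𝓣' J : Type} [Group Γ] [Fintype 𝓣] [Fintype 𝓣'] [Fintype J] [DecidableEq 𝓣]
    (γ : J → Γ) (b : J → 𝓣' → 𝓣 → ℤ) (r : ℝ)
    (hyp : ∀ (ε : ℝ), 0 < ε → ∀ E : Finset Γ, (1 : Γ) ∉ E → ∃ (X : Type) (_ : Fintype X)
      (_ : Nonempty X) (act : X → Γ → X),
      (∀ x, act x 1 = x) ∧ (∀ x g h, act x (g * h) = act (act x g) h) ∧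
      (∀ g ∈ E, ∀ x, act x g ≠ x) ∧
      ∃ K : Submodule ℝ (X → 𝓣 → ℝ),
        (∀ c, c ∈ K ↔ ∀ x τ', ∑ j, ∑ τ, (b j τ' τ : ℝ) * c (act x (γ j)) τ = 0) ∧
        (finrank ℝ K : ℝ) ≤ (r + ε) * Fintype.card X) (ε : ℝ) (hε : 0 < ε) (n m : ℕ)
    (hn : 1 ≤ n) :
    ∑ τ, srow (TT γ b ^ m) τ ≤
      (r + ε) + Fintype.card 𝓣 * (Real.log (Cc b) / n + (1 - Real.exp (-n)) ^ (2 * m)) := by
  classical
  set a := TT γ b ^ m with ha
  obtain ⟨X, i1, i2, act, h0, h1, hE, K, hK, hKc⟩ := hyp ε hε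
    (a.coeff.support.offDiag.image fun p => p.1 * p.2⁻¹) (by
      intro h
      rw [Finset.mem_image] at h
      obtain ⟨p, hp, h⟩ := h
      rw [Finset.mem_offDiag] at hp
      exact hp.2.2 (mul_inv_eq_one.1 h))
  have hfree : ∀ x, Set.InjOn (act x) a.coeff.support := by
    intro x h hh h' hh' e
    by_contra hne
    apply hE (h * h'⁻¹) (Finset.mem_image.2 ⟨(h, h'), Finset.mem_offDiag.2 ⟨hh, hh', hne⟩, rfl⟩) x
    rw [h1, e, ← h1, mul_inv_cancel, h0]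
  have hT := PhiX_TT γ b act h0 h1
  have hsT : (PhiX act h0 h1 (TT γ b))ᵀ = PhiX act h0 h1 (TT γ b) := by
    rw [hT, Matrix.transpose_sub, Matrix.transpose_one, Matrix.transpose_smul]
    congr 2
    ext i j
    simp only [Matrix.transpose_apply, Matrix.map_apply, Matrix.mul_apply]
    congr 1
    exact Finset.sum_congr rfl fun k _ => mul_comm _ _
  have hs : (PhiX act h0 h1 a)ᵀ = PhiX act h0 h1 a := by
    rw [ha, map_pow, Matrix.transpose_pow, hsT]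
  have h2 := trace_sq act h0 h1 a hfree hs
  have h3 : PhiX act h0 h1 a * PhiX act h0 h1 a =
      (1 - (Cc b)⁻¹ • ((BX γ b act)ᵀ * BX γ b act).map (Int.cast : ℤ → ℝ)) ^ (2 * m) := by
    rw [ha, map_pow, hT, ← pow_add, two_mul]
  rw [h3] at h2
  have h4 := tr_bound (BX γ b act) (Cc b) (one_le_Cc b) (rows γ b act h0 h1) n m hn
  rw [h2, Fintype.card_prod] at h4
  have h5 := ker_le γ b act K hK
  have hX : (0 : ℝ) < Fintype.card X := by exact_mod_cast Fintype.card_pos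
  have h6 : (Module.finrank ℝ K : ℝ) ≤ Fintype.card X * (r + ε) := by
    rw [mul_comm]
    exact hKc
  have h7 : ((Module.finrank ℝ (LinearMap.ker
      ((BX γ b act).map (Int.cast : ℤ → ℝ)).mulVecLin) : ℕ) : ℝ) ≤ Module.finrank ℝ K := by
    exact_mod_cast h5
  refine le_of_mul_le_mul_left ?_ hX
  refine h4.trans ?_
  push_cast
  have h8 := h7.trans h6
  calc _ ≤ (Fintype.card X : ℝ) * (r + ε) + Fintype.card X * Fintype.card 𝓣 *
        (Real.log (Cc b) / n + (1 - Real.exp (-n)) ^ (2 * m)) := by gcongr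
    _ = _ := by ring

end Pool.Agent.W5h83.GT.Lu

namespace Pool.Agent.W5h83.GT

open Module Pool.Agent.W907.SG Pool.Agent.W21.SGL Filter Topology Lu

/-- **LUEN** -/
theorem luen : S_LUEN := by
  intro Γ 𝓣 𝓣' J _ _ _ _ γ b r hyp
  classical
  have key : ∀ (k n : ℕ), 1 ≤ n → dimL γ b ≤ (r + 1 / ((k : ℝ) + 1)) +
      Fintype.card 𝓣 * (Real.log (Cc b) / n + ((1 - Real.exp (-n)) ^ 2) ^ k) := by
    intro k n hn
    have h1 : dimL γ b ≤ ∑ τ, srow (TT γ b ^ k) τ := by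
      unfold dimL
      refine Finset.sum_le_sum fun τ _ => ?_
      exact one_sub_dist γ b k τ
    have h2 := S_leN γ b r hyp (1 / ((k : ℝ) + 1)) (by positivity) n k hn
    rw [pow_mul] at h2
    exact h1.trans h2
  have key2 : ∀ n : ℕ, 1 ≤ n → dimL γ b ≤ r + Fintype.card 𝓣 * (Real.log (Cc b) / n) := by
    intro n hn
    have hn0 : (0 : ℝ) < n := by exact_mod_cast hn
    have hlim : Tendsto (fun k : ℕ => (r + 1 / ((k : ℝ) + 1)) + Fintype.card 𝓣 *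
        (Real.log (Cc b) / n + ((1 - Real.exp (-n)) ^ 2) ^ k)) atTop
        (𝓝 ((r + 0) + Fintype.card 𝓣 * (Real.log (Cc b) / n + 0))) := by
      refine Tendsto.add (Tendsto.const_add _ tendsto_one_div_add_atTop_nhds_zero_nat)
        (Tendsto.const_mul _ (Tendsto.const_add _ ?_))
      apply tendsto_pow_atTop_nhds_zero_of_lt_one (sq_nonneg _)
      have he : Real.exp (-n) ≤ 1 := by
        rw [Real.exp_le_one_iff]; linarith
      have he0 := Real.exp_pos (-(n : ℝ))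
      nlinarith
    rw [add_zero, add_zero] at hlim
    exact ge_of_tendsto' hlim fun k => key k n hn
  have hlim : Tendsto (fun n : ℕ => r + Fintype.card 𝓣 * (Real.log (Cc b) / ((n : ℝ) + 1))) atTop
      (𝓝 (r + Fintype.card 𝓣 * (Real.log (Cc b) * 0))) := by
    refine Tendsto.const_add _ (Tendsto.const_mul _ ?_)
    simp only [div_eq_mul_one_div (Real.log (Cc b))]
    exact Tendsto.const_mul _ tendsto_one_div_add_atTop_nhds_zero_nat
  rw [mul_zero, mul_zero, add_zero] at hlim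
  refine ge_of_tendsto' hlim fun n => ?_
  have := key2 (n + 1) (by omega)
  push_cast at this
  exact this

end Pool.Agent.W5h83.GT
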