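import Pool.Agent.W5h83.GT.Orth
import Pool.Agent.W907.SG.All

/-!
# The bound for the solutions on finite sets
-/

set_option autoImplicit false

namespace Pool.Agent.W5h83.GT

open Module Pool.Agent.W907.SG Filter Topology
open scoped ENNReal InnerProductSpace

section
open Classical

variable {ι E : Type} [Fintype ι] [Fintype E]

/-- finite sets with a free action of a ball -/
theorem exists_free (n : ℕ) : ∃ (F : Type) (_ : Fintype F) (_ : Nonempty F) (a : E → F → F) (ev : F → FP E → F)
    (sg : E → F → Bool), (∀ e x, a e (a e x) = x) ∧ (∀ f, ev f 1 = f) ∧ (∀ f g h, ev f (g * h) = ev (ev f g) h) ∧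
    (∀ f e, ev f (sf e) = a e f) ∧ (∀ h ∈ Rn E n, h ≠ 1 → ∀ f, ev f h ≠ f) ∧
    (∀ e x, sg e (a e x) = !(sg e x)) := by
  have : Fact (Nat.Prime 3) := ⟨Nat.prime_three⟩
  obtain ⟨F, i1, i2, P, ev, f1, f2, f3, f4⟩ := nilp 3 E (⊥ : SimpleGraph E) ((Rn E n).erase 1) (by decide)
    (Finset.notMem_erase _ _)
  exact ⟨F, i1, i2, P.a, ev, P.sgn, P.inv, f1, f2, f3, fun h hh h1 f => f4 h (Finset.mem_erase.2 ⟨h1, hh⟩) f,
    P.sgn_self⟩

variable (c : ι → E)

/-- the colour component -/
noncomputable def col (e : E) (x : ι → ℝ) : ι → ℝ := fun i => if c i = e then x i else 0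

theorem sum_col (x : ι → ℝ) : x = ∑ e, col c e x := by
  funext i
  rw [Finset.sum_apply]
  unfold col
  rw [Finset.sum_ite_eq, if_pos (Finset.mem_univ _)]

/-- the traces of the words in the reflections -/
theorem nt_refl {V A B : Submodule ℝ (ι → ℝ)} (hV : Hom c V) (hA : A ≤ V) (hB : B ≤ V)
    {pV q1 q2 : Module.End ℝ (ι → ℝ)} (h : IsPr V pV) (h1 : IsPr A q1) (h2 : IsPr B q2) (k : ℕ) :
    nt ((o1 (FP E) ((2 : ℝ) • q1 - pV) * o2 aU c ((2 : ℝ) • q2 - pV)) ^ (2 * k) * o1 (FP E) ((2 : ℝ) • q1 - pV)) =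
      nt (o1 (FP E) ((2 : ℝ) • q1 - pV)) ∧
    nt ((o1 (FP E) ((2 : ℝ) • q1 - pV) * o2 aU c ((2 : ℝ) • q2 - pV)) ^ (2 * k + 1) *
      o1 (FP E) ((2 : ℝ) • q1 - pV)) = nt (o2 aU c ((2 : ℝ) • q2 - pV)) := by
  obtain ⟨F, i1, i2, a, ev, sg, ha, e1, e2, e3, e4, _⟩ := exists_free (E := E) (2 * (2 * k + 1) + 1)
  obtain ⟨r1, r2, r3⟩ := refl_mul hA h1 h
  obtain ⟨s1, s2, s3⟩ := refl_mul hB h2 h
  have hQ : o2 a c pV = o1 F pV := o2_eq_o1 ha hV h
  have hcard : (Fintype.card F : ℝ) ≠ 0 := by
    rw [Nat.cast_ne_zero]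
    exact Fintype.card_ne_zero
  have key := tr_refl (o1 F ((2 : ℝ) • q1 - pV)) (o2 a c ((2 : ℝ) • q2 - pV)) (o1 F pV) (by rw [o1_mul, r1])
    (by rw [o2_mul a c ha, s1, hQ]) (by rw [o1_mul, r2]) (by rw [← hQ, o2_mul a c ha, s2]) k
  have n1 : Nt ev (o1 (FP E) ((2 : ℝ) • q1 - pV)) (o1 F ((2 : ℝ) • q1 - pV)) := Nt.o1 _
  have n2 : Nt ev (o2 aU c ((2 : ℝ) • q2 - pV)) (o2 a c ((2 : ℝ) • q2 - pV)) := Nt.o2 c e2 e3 _
  have fr : ∀ m, m ≤ 2 * (2 * k + 1) + 1 → ∀ h ∈ Rn E m, h ≠ 1 → ∀ f, ev f h ≠ f := fun m hm h hh =>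
    e4 h (Rn_mono hm hh)
  have t0 := trace_eq e1 (Loc.one.mul (One.o1 ((2 : ℝ) • q1 - pV))) (Nt.one.mul n1) (fr _ (by omega))
  have t0' := trace_eq e1 (Loc.one.mul (One.o2 c ((2 : ℝ) • q2 - pV))) (Nt.one.mul n2) (fr _ (by omega))
  rw [one_mul, one_mul] at t0 t0'
  have t1 := trace_eq e1 ((Loc.pow2 (One.o1 ((2 : ℝ) • q1 - pV)) (One.o2 c ((2 : ℝ) • q2 - pV)) (2 * k)).mul
    (One.o1 ((2 : ℝ) • q1 - pV))) (((n1.mul n2).pow (2 * k)).mul n1) (fr _ (by omega))
  have t2 := trace_eq e1 ((Loc.pow2 (One.o1 ((2 : ℝ) • q1 - pV)) (One.o2 c ((2 : ℝ) • q2 - pV)) (2 * k + 1)).mul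
    (One.o1 ((2 : ℝ) • q1 - pV))) (((n1.mul n2).pow (2 * k + 1)).mul n1) (fr _ (by omega))
  rw [key.1, t0] at t1
  rw [key.2, t0'] at t2
  exact ⟨(mul_left_cancel₀ hcard t1).symm, (mul_left_cancel₀ hcard t2).symm⟩

/-- **Main bound.** -/
theorem free_bound (C K1 K2 N : Submodule ℝ (ι → ℝ)) (hK1 : K1 ≤ C) (hC : Hom c C) (hN : Hom c N)
    (hN1 : N ≤ K1) (hN2 : N ≤ K2) (D : ℝ)
    (hd : ∀ V : Submodule ℝ (ι → ℝ), Hom c V → N ≤ V → V ≤ C →
      (finrank ℝ ↥(K1 ⊓ V) : ℝ) + finrank ℝ ↥(K2 ⊓ V) ≤ finrank ℝ V + D) (ε : ℝ) (hε : 0 < ε) :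
    ∃ n : ℕ, ∀ (F : Type) [Fintype F] (a : E → F → F) (ev : F → FP E → F), (∀ e x, a e (a e x) = x) →
      (∀ f, ev f 1 = f) → (∀ f g h, ev f (g * h) = ev (ev f g) h) → (∀ f e, ev f (sf e) = a e f) →
      (∀ h ∈ Rn E n, h ≠ 1 → ∀ f, ev f h ≠ f) →
      (finrank ℝ (Sol a c K1 K2) : ℝ) ≤ Fintype.card F * (D + ε) := by
  obtain ⟨p1, hp1⟩ := exists_pr K1
  obtain ⟨p2, hp2⟩ := exists_pr K2
  let I : Submodule ℝ (HS ι E) := KV id K1 ⊓ KV (t2 c) K2
  haveI hI : I.HasOrthogonalProjection := by
    haveI : CompleteSpace I := ((closed_KV id K1).inter (closed_KV (t2 c) K2)).completeSpace_coe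
    infer_instance
  -- the space of the coefficients
  let V : Submodule ℝ (ι → ℝ) := Submodule.span ℝ
    {w | ∃ x ∈ I, ∃ g e, w = col c e (fun i => (x : FP E × ι → ℝ) (g, i))}
  have hgen : ∀ x ∈ I, ∀ g e, col c e (fun i => (x : FP E × ι → ℝ) (g, i)) ∈ V := fun x hx g e =>
    Submodule.subset_span ⟨x, hx, g, e, rfl⟩
  have hVC : V ≤ C := by
    refine Submodule.span_le.2 ?_
    rintro w ⟨x, hx, g, e, rfl⟩
    exact hC _ (hK1 (hx.1 g)) e
  have hVh : Hom c V := by
    intro x hx e
    refine Submodule.span_induction (p := fun x _ => (fun i => if c i = e then x i else 0) ∈ V) ?_ ?_ ?_ ?_ hx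
    · rintro w ⟨x, hx, g, e', rfl⟩
      by_cases h : e' = e
      · have : (fun i => if c i = e then col c e' (fun i => (x : FP E × ι → ℝ) (g, i)) i else 0) =
            col c e' (fun i => (x : FP E × ι → ℝ) (g, i)) := by
          funext i
          unfold col
          rw [h]
          split_ifs <;> rfl
        rw [this]
        exact hgen x hx g e'
      · have : (fun i => if c i = e then col c e' (fun i => (x : FP E × ι → ℝ) (g, i)) i else 0) = 0 := by
          funext i
          unfold col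
          by_cases h1 : c i = e
          · rw [if_pos h1, if_neg (fun h2 => h (h2.symm.trans h1))]; rfl
          · rw [if_neg h1]; rfl
        rw [this]
        exact V.zero_mem
    · have : (fun i : ι => if c i = e then (0 : ι → ℝ) i else 0) = 0 := by
        funext i
        simp
      rw [this]
      exact V.zero_mem
    · intro x y _ _ h1 h2
      have : (fun i => if c i = e then (x + y) i else 0) =
          (fun i => if c i = e then x i else 0) + fun i => if c i = e then y i else 0 := by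
        funext i
        show (if c i = e then x i + y i else 0) = (if c i = e then x i else 0) + (if c i = e then y i else 0)
        split_ifs <;> simp
      rw [this]
      exact V.add_mem h1 h2
    · intro r x _ h1
      have : (fun i => if c i = e then (r • x) i else 0) = r • fun i => if c i = e then x i else 0 := by
        funext i
        show (if c i = e then r * x i else 0) = r * (if c i = e then x i else 0)
        split_ifs <;> simp
      rw [this]
      exact V.smul_mem r h1
  have hval : ∀ x ∈ I, ∀ g, (fun i => (x : FP E × ι → ℝ) (g, i)) ∈ V := by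
    intro x hx g
    rw [sum_col c (fun i => (x : FP E × ι → ℝ) (g, i))]
    exact V.sum_mem fun e _ => hgen x hx g e
  have hval2 : ∀ x ∈ I, ∀ g, (fun i => (x : FP E × ι → ℝ) (t2 c (g, i))) ∈ V := by
    intro x hx g
    rw [sum_col c (fun i => (x : FP E × ι → ℝ) (t2 c (g, i)))]
    refine V.sum_mem fun e _ => ?_
    have : col c e (fun i => (x : FP E × ι → ℝ) (t2 c (g, i))) = col c e (fun i => (x : FP E × ι → ℝ) (g * sf e, i)) := by
      funext i
      unfold col
      by_cases h : c i = e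
      · rw [if_pos h, if_pos h, ← h]; rfl
      · rw [if_neg h, if_neg h]
    rw [this]
    exact hgen x hx _ e
  have hNV : N ≤ V := by
    intro n hn
    let x : HS ι E := ∑ i, n i • dl (1, i)
    have hx : ∀ z, (x : FP E × ι → ℝ) z = if z.1 = 1 then n z.2 else 0 := by
      intro z
      show ((∑ i, n i • dl (1, i) : HS ι E) : FP E × ι → ℝ) z = _
      rw [lp.coeFn_sum, Finset.sum_apply, Finset.sum_eq_single z.2]
      · rw [lp.coeFn_smul, Pi.smul_apply, dl_apply, smul_eq_mul]
        by_cases h : z.1 = 1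
        · have : z = (1, z.2) := Prod.ext h rfl
          rw [if_pos h]
          conv_lhs => rw [this]
          rw [Pi.single_eq_same, mul_one]
        · rw [if_neg h, Pi.single_eq_of_ne (fun e => h (congrArg Prod.fst e)), mul_zero]
      · intro i _ hi
        rw [lp.coeFn_smul, Pi.smul_apply, dl_apply, Pi.single_eq_of_ne (fun e => hi (congrArg Prod.snd e).symm),
          smul_zero]
      · intro h; exact absurd (Finset.mem_univ _) h
    have hxI : x ∈ I := by
      refine ⟨fun g => ?_, fun g => ?_⟩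
      · by_cases h : g = 1
        · have : (fun j => (x : FP E × ι → ℝ) (id (g, j))) = n := by
            funext j
            show (x : FP E × ι → ℝ) (g, j) = n j
            rw [hx]
            exact if_pos h
          rw [this]
          exact hN1 hn
        · have : (fun j => (x : FP E × ι → ℝ) (id (g, j))) = 0 := by
            funext j
            show (x : FP E × ι → ℝ) (g, j) = 0
            rw [hx]
            exact if_neg h
          rw [this]
          exact K1.zero_mem
      · have : (fun j => (x : FP E × ι → ℝ) (t2 c (g, j))) = ∑ e, if g * sf e = 1 then col c e n else 0 := by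
          funext j
          rw [hx, Finset.sum_apply, Finset.sum_eq_single (c j)]
          · show (if g * sf (c j) = 1 then n j else 0) = _
            by_cases h : g * sf (c j) = 1
            · rw [if_pos h, if_pos h]
              unfold col
              rw [if_pos rfl]
            · rw [if_neg h, if_neg h]; rfl
          · intro e _ he
            by_cases h : g * sf e = 1
            · rw [if_pos h]
              unfold col
              rw [if_neg (fun h => he h.symm)]
            · rw [if_neg h]; rfl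
          · intro h; exact absurd (Finset.mem_univ _) h
        rw [this]
        refine K2.sum_mem fun e _ => ?_
        split_ifs
        · exact hN2 (hN n hn e)
        · exact K2.zero_mem
    have h1 := hval x hxI 1
    have : (fun i => (x : FP E × ι → ℝ) (1, i)) = n := by
      funext i
      rw [hx]
      exact if_pos rfl
    rwa [this] at h1
  obtain ⟨pV, hpV⟩ := exists_pr V
  obtain ⟨q1, hq1⟩ := exists_pr (K1 ⊓ V)
  obtain ⟨q2, hq2⟩ := exists_pr (K2 ⊓ V)
  obtain ⟨r1, r2, r3⟩ := refl_mul (inf_le_right : K1 ⊓ V ≤ V) hq1 hpV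
  obtain ⟨s1, s2, s3⟩ := refl_mul (inf_le_right : K2 ⊓ V ≤ V) hq2 hpV
  have hQ : o2 aU c pV = o1 (FP E) pV := o2_eq_o1 aU_aU hVh hpV
  -- the operators
  let R1' : HS ι E →L[ℝ] HS ι E := (2 : ℝ) • (KV id (K1 ⊓ V)).starProjection - (KV id V).starProjection
  let R2' : HS ι E →L[ℝ] HS ι E := (2 : ℝ) • (KV (t2 c) (K2 ⊓ V)).starProjection - (KV (t2 c) V).starProjection
  have hR1 : Ex R1' (o1 (FP E) ((2 : ℝ) • q1 - pV)) := ((Ex.pr1 hq1).smul 2).sub (Ex.pr1 hpV)
  have hR2 : Ex R2' (o2 aU c ((2 : ℝ) • q2 - pV)) := ((Ex.pr2 c hq2).smul 2).sub (Ex.pr2 c hpV)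
  have nR1 : ‖R1'‖ ≤ 1 := norm_refl (fun x hx g => (hx g).2)
  have nR2 : ‖R2'‖ ≤ 1 := norm_refl (fun x hx g => (hx g).2)
  have hfix : ∀ x, (R1'.comp R2') x = x ↔ x ∈ I := by
    intro x
    constructor
    · intro hx
      have hx0 : o1 (FP E) ((2 : ℝ) • q1 - pV) (o2 aU c ((2 : ℝ) • q2 - pV) (x : FP E × ι → ℝ)) = x := by
        have := (hR1.mul hR2) x
        rw [hx] at this
        exact this.symm
      have hxQ : o1 (FP E) pV (x : FP E × ι → ℝ) = x := by
        conv_lhs => rw [← hx0]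
        rw [← Module.End.mul_apply, o1_mul, r3, hx0]
      have hx1 : o1 (FP E) ((2 : ℝ) • q1 - pV) (x : FP E × ι → ℝ) = o2 aU c ((2 : ℝ) • q2 - pV) (x : FP E × ι → ℝ) := by
        conv_lhs => rw [← hx0]
        rw [← Module.End.mul_apply, o1_mul, r1, ← hQ, ← Module.End.mul_apply, o2_mul aU c aU_aU, s3]
      have hx2 : o1 (FP E) q1 (x : FP E × ι → ℝ) = o2 aU c q2 (x : FP E × ι → ℝ) := by
        have e1 : o1 (FP E) ((2 : ℝ) • q1 - pV) (x : FP E × ι → ℝ) = (2 : ℝ) • o1 (FP E) q1 x - o1 (FP E) pV x := rfl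
        have e2 : o2 aU c ((2 : ℝ) • q2 - pV) (x : FP E × ι → ℝ) = (2 : ℝ) • o2 aU c q2 x - o2 aU c pV x := rfl
        rw [e1, e2, hQ, sub_left_inj] at hx1
        exact smul_right_injective _ (two_ne_zero) hx1
      -- the difference
      let w : HS ι E := x - (KV id (K1 ⊓ V)).starProjection x
      have hw : (w : FP E × ι → ℝ) = x - o1 (FP E) q1 (x : FP E × ι → ℝ) := by
        show ((x - (KV id (K1 ⊓ V)).starProjection x : HS ι E) : FP E × ι → ℝ) = _
        rw [lp.coeFn_sub, Ex.pr1 hq1]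
      have w1 : o1 (FP E) q1 (w : FP E × ι → ℝ) = 0 := by
        rw [hw, map_sub, ← Module.End.mul_apply, o1_mul]
        have : q1 * q1 = q1 := LinearMap.ext hq1.idem
        rw [this, sub_self]
      have w2 : o2 aU c q2 (w : FP E × ι → ℝ) = 0 := by
        rw [hw, map_sub, hx2, ← Module.End.mul_apply, o2_mul aU c aU_aU]
        have : q2 * q2 = q2 := LinearMap.ext hq2.idem
        rw [this, sub_self]
      have w3 : ∀ g, (fun i => (w : FP E × ι → ℝ) (g, i)) ∈ V := by
        intro g
        have e1 : (fun i => (w : FP E × ι → ℝ) (g, i)) =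
            pV (fun i => (x : FP E × ι → ℝ) (g, i)) - q1 (fun i => (x : FP E × ι → ℝ) (g, i)) := by
          funext i
          rw [hw]
          have e2 : (x : FP E × ι → ℝ) (g, i) = pV (fun i => (x : FP E × ι → ℝ) (g, i)) i :=
            (congrFun hxQ (g, i)).symm
          show (x : FP E × ι → ℝ) (g, i) - q1 (fun i => (x : FP E × ι → ℝ) (g, i)) i =
            pV (fun i => (x : FP E × ι → ℝ) (g, i)) i - q1 (fun i => (x : FP E × ι → ℝ) (g, i)) i
          rw [← e2]
        rw [e1]
        exact V.sub_mem (hpV.mem _) (hq1.mem _).2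
      have w4 : ∀ g, (fun i => (w : FP E × ι → ℝ) (g, i)) = 0 := by
        intro g
        have e1 : ∀ v ∈ V, v ⬝ᵥ (fun i => (w : FP E × ι → ℝ) (g, i)) = 0 := by
          intro v hv
          refine Submodule.span_induction (p := fun v _ => v ⬝ᵥ (fun i => (w : FP E × ι → ℝ) (g, i)) = 0)
            ?_ ?_ ?_ ?_ hv
          · rintro _ ⟨z, hz, g', e, rfl⟩
            have h1 := orth c hq1 hq2 z w (fun g => ⟨hz.1 g, hval z hz g⟩) (fun g => ⟨hz.2 g, hval2 z hz g⟩)
              w1 w2 (g' * g⁻¹) g e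
            rw [← h1]
            unfold dotProduct col
            refine Finset.sum_congr rfl fun i _ => ?_
            rw [inv_mul_cancel_right]
            split_ifs
            · rfl
            · exact zero_mul _
          · exact zero_dotProduct _
          · intro x y _ _ h1 h2
            rw [add_dotProduct, h1, h2, add_zero]
          · intro r x _ h1
            rw [smul_dotProduct, h1, smul_zero]
        exact dotProduct_self_eq_zero.1 (e1 _ (w3 g))
      have w5 : (x : FP E × ι → ℝ) = o1 (FP E) q1 (x : FP E × ι → ℝ) := by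
        have h1 : (w : FP E × ι → ℝ) = 0 := by
          funext z
          exact congrFun (w4 z.1) z.2
        rw [hw, sub_eq_zero] at h1
        exact h1
      refine ⟨fun g => ?_, fun g => ?_⟩
      · have h1 : (fun j => (x : FP E × ι → ℝ) (id (g, j))) = q1 (fun i => (x : FP E × ι → ℝ) (g, i)) := by
          funext j
          exact congrFun w5 (g, j)
        rw [h1]
        exact (hq1.mem _).1
      · have h1 : (fun j => (x : FP E × ι → ℝ) (t2 c (g, j))) = q2 (fun i => (x : FP E × ι → ℝ) (t2 c (g, i))) := by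
          funext j
          have h2 := congrFun (w5.trans hx2) (t2 c (g, j))
          rw [h2, o2_apply]
          refine congrFun (congrArg q2 (funext fun i => ?_)) _
          show (x : FP E × ι → ℝ) (g * sf (c j) * sf (c j) * sf (c i), i) = (x : FP E × ι → ℝ) (g * sf (c i), i)
          rw [mul_assoc g, sf_sf, mul_one]
        rw [h1]
        exact (hq2.mem _).1
    · intro hx
      have a1 : (KV id (K1 ⊓ V)).starProjection x = x :=
        Submodule.starProjection_eq_self_iff.2 fun g => ⟨hx.1 g, hval x hx g⟩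
      have a2 : (KV id V).starProjection x = x := Submodule.starProjection_eq_self_iff.2 fun g => hval x hx g
      have a3 : (KV (t2 c) (K2 ⊓ V)).starProjection x = x :=
        Submodule.starProjection_eq_self_iff.2 fun g => ⟨hx.2 g, hval2 x hx g⟩
      have a4 : (KV (t2 c) V).starProjection x = x := Submodule.starProjection_eq_self_iff.2 fun g => hval2 x hx g
      have b2 : R2' x = x := by
        show (2 : ℝ) • (KV (t2 c) (K2 ⊓ V)).starProjection x - (KV (t2 c) V).starProjection x = x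
        rw [a3, a4, two_smul, add_sub_cancel_right]
      have b1 : R1' x = x := by
        show (2 : ℝ) • (KV id (K1 ⊓ V)).starProjection x - (KV id V).starProjection x = x
        rw [a1, a2, two_smul, add_sub_cancel_right]
      show R1' (R2' x) = x
      rw [b2, b1]
  -- the limits
  let L : ℝ := ∑ i, (I.starProjection (dl (1, i)) : FP E × ι → ℝ) (1, i)
  have hL1 : Tendsto (fun n : ℕ => (n : ℝ)⁻¹ * ∑ k ∈ Finset.range n, nt (oC c aU p1 p2 ^ k)) atTop (𝓝 L) := by
    have h1 := ergodic (T' := (1 / 2 : ℝ) • ((KV id K1).starProjection + (KV (t2 c) K2).starProjection))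
      (T := oC c aU p1 p2) (((Ex.pr1 hp1).add (Ex.pr2 c hp2)).smul (1 / 2)) Ex.one avg_norm I (fun x => avg_fix x)
    simp only [mul_one] at h1
    exact h1
  have hL2 : Tendsto (fun n : ℕ => (n : ℝ)⁻¹ * ∑ k ∈ Finset.range n,
      nt ((o1 (FP E) ((2 : ℝ) • q1 - pV) * o2 aU c ((2 : ℝ) • q2 - pV)) ^ k * o1 (FP E) ((2 : ℝ) • q1 - pV)))
      atTop (𝓝 L) := by
    have h1 := ergodic (hR1.mul hR2) hR1 ((ContinuousLinearMap.opNorm_comp_le _ _).trans
      (mul_le_one₀ nR1 (norm_nonneg _) nR2)) I hfix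
    have h2 : ∀ i : ι, (I.starProjection (R1' (dl (1, i))) : FP E × ι → ℝ) (1, i) =
        (I.starProjection (dl (1, i)) : FP E × ι → ℝ) (1, i) := by
      intro i
      rw [← inner_dl, ← inner_dl, ← Submodule.inner_starProjection_left_eq_right]
      have h3 : ∀ x y : HS ι E, ⟪x, R1' y⟫_ℝ = ⟪R1' x, y⟫_ℝ := by
        intro x y
        show ⟪x, (2 : ℝ) • (KV id (K1 ⊓ V)).starProjection y - (KV id V).starProjection y⟫_ℝ =
          ⟪(2 : ℝ) • (KV id (K1 ⊓ V)).starProjection x - (KV id V).starProjection x, y⟫_ℝ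
        rw [inner_sub_left, inner_sub_right, inner_smul_left, inner_smul_right,
          Submodule.inner_starProjection_left_eq_right, Submodule.inner_starProjection_left_eq_right]
        rfl
      rw [h3]
      have h4 : R1' (I.starProjection (dl (1, i))) = I.starProjection (dl (1, i)) := by
        have hx : I.starProjection (dl (1, i)) ∈ I := Submodule.starProjection_apply_mem _ _
        have a1 : (KV id (K1 ⊓ V)).starProjection (I.starProjection (dl (1, i))) = I.starProjection (dl (1, i)) :=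
          Submodule.starProjection_eq_self_iff.2 fun g => ⟨hx.1 g, hval _ hx g⟩
        have a2 : (KV id V).starProjection (I.starProjection (dl (1, i))) = I.starProjection (dl (1, i)) :=
          Submodule.starProjection_eq_self_iff.2 fun g => hval _ hx g
        show (2 : ℝ) • (KV id (K1 ⊓ V)).starProjection (I.starProjection (dl (1, i))) -
          (KV id V).starProjection (I.starProjection (dl (1, i))) = _
        rw [a1, a2, two_smul, add_sub_cancel_right]
      rw [h4, Submodule.inner_starProjection_left_eq_right]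
    simp only [h2] at h1
    exact h1
  have hval0 : L = (finrank ℝ ↥(K1 ⊓ V) : ℝ) + finrank ℝ ↥(K2 ⊓ V) - finrank ℝ V := by
    have h1 : Tendsto (fun m : ℕ => 2 * (m + 1)) atTop atTop :=
      tendsto_atTop_mono (fun m => by simp only [id]; omega) tendsto_id
    have h2 := hL2.comp h1
    refine tendsto_nhds_unique h2 (tendsto_const_nhds.congr fun m => ?_)
    have h3 : ∀ m : ℕ, ∑ k ∈ Finset.range (2 * m),
        nt ((o1 (FP E) ((2 : ℝ) • q1 - pV) * o2 aU c ((2 : ℝ) • q2 - pV)) ^ k * o1 (FP E) ((2 : ℝ) • q1 - pV)) =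
        m * (nt (o1 (FP E) ((2 : ℝ) • q1 - pV)) + nt (o2 aU c ((2 : ℝ) • q2 - pV))) := by
      intro m
      induction m with
      | zero => simp
      | succ m ih =>
        rw [show 2 * (m + 1) = 2 * m + 1 + 1 by ring, Finset.sum_range_succ, Finset.sum_range_succ, ih,
          (nt_refl c hVh inf_le_right inf_le_right hpV hq1 hq2 m).1,
          (nt_refl c hVh inf_le_right inf_le_right hpV hq1 hq2 m).2]
        push_cast
        ring
    show _ = ((2 * (m + 1) : ℕ) : ℝ)⁻¹ * ∑ k ∈ Finset.range (2 * (m + 1)), _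
    rw [h3, nt_o1, nt_o2, map_sub, map_sub, map_smul, map_smul, hq1.trace, hq2.trace, hpV.trace]
    push_cast
    simp only [smul_eq_mul]
    have : ((m : ℝ) + 1) ≠ 0 := by positivity
    field_simp
    ring
  have hLD : L < D + ε := by
    have := hd V hVh hNV hVC
    rw [hval0]
    linarith
  have h1 : ∀ᶠ n : ℕ in atTop, (n : ℝ)⁻¹ * ∑ k ∈ Finset.range n, nt (oC c aU p1 p2 ^ k) < D + ε :=
    hL1.eventually (gt_mem_nhds hLD)
  obtain ⟨n, hn1, hn2⟩ := (h1.and (eventually_ge_atTop 1)).exists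
  refine ⟨n, fun F _ a ev ha ev1 ev2 ev3 hfree => ?_⟩
  have hn0 : (0 : ℝ) < n := by exact_mod_cast hn2
  have h2 : ∀ k ∈ Finset.range n, (finrank ℝ (Sol a c K1 K2) : ℝ) ≤ Fintype.card F * nt (oC c aU p1 p2 ^ k) := by
    intro k hk
    have hone : One (oC (ι := ι) c (aU (E := E)) p1 p2) := One.smul (1 / 2) ((One.o1 p1).add (One.o2 c p2))
    have hnt : Nt ev (oC c aU p1 p2) (oC c a p1 p2) := Nt.smul (1 / 2) ((Nt.o1 p1).add (Nt.o2 c ev2 ev3 p2))
    rw [← trace_eq ev1 (Loc.pow hone k) (hnt.pow k) (fun h hh =>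
      hfree h (Rn_mono (Finset.mem_range.1 hk).le hh))]
    exact sol_le a c ha hp1 hp2 k
  have h3 := Finset.sum_le_sum h2
  rw [Finset.sum_const, Finset.card_range, nsmul_eq_mul, ← Finset.mul_sum] at h3
  have h4 : (finrank ℝ (Sol a c K1 K2) : ℝ) ≤
      Fintype.card F * ((n : ℝ)⁻¹ * ∑ k ∈ Finset.range n, nt (oC c aU p1 p2 ^ k)) := by
    rw [← mul_le_mul_iff_right₀ hn0]
    calc (n : ℝ) * (finrank ℝ (Sol a c K1 K2) : ℝ) ≤ _ := h3
      _ = _ := by field_simp
  exact h4.trans (mul_le_mul_of_nonneg_left hn1.le (Nat.cast_nonneg _))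

end

end Pool.Agent.W5h83.GT
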