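import Pool.Agent.W5h83.GT.Top3

/-!
# Exact dimension counts
-/

set_option autoImplicit false
set_option linter.unusedSectionVars false

namespace Pool.Agent.W5h83.GT

open Module Pool.Agent.W907.SG
open Pool.Agent.W347.SGV (qq qq_of_mem qq_of_not qq_bd qq_mem lift lift_mem qq_lift mem_of_qq)
open Pool.Agent.TH652.Glue (res res_of_sub res_of_not res_mem inter_mem KK_mono BB_mono finrank_prod_sub)

section
variable {V : Type} [Fintype V] [LinearOrder V]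
variable {F M : Type} [Field F] [AddCommGroup M] [Module F M]

/-- the anti-diagonal -/
def adg (F : Type) {E : Type} [Field F] [AddCommGroup E] [Module F E] : E →ₗ[F] E × E :=
  LinearMap.prod LinearMap.id (-LinearMap.id)

theorem adg_inj (F : Type) {E : Type} [Field F] [AddCommGroup E] [Module F E] :
    Function.Injective (adg F : E →ₗ[F] E × E) := fun _ _ h => congrArg Prod.fst h

/-- **The Mayer–Vietoris inequality with the contribution of the intersection.** -/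
theorem mv_exact [FiniteDimensional F M] (G : SimpleGraph V) (ρ : V → M →ₗ[F] M) (A B U : Set V)
    (hA : A ⊆ U) (hB : B ⊆ U)
    (hcl : ∀ T : Finset V, G.IsClique (T : Set V) → (T : Set V) ⊆ U → (T : Set V) ⊆ A ∨ (T : Set V) ⊆ B) (i : ℕ) :
    beta G ρ U ∅ (i + 1) + (finrank F (BB G ρ A ∅ (i + 1)) + finrank F (BB G ρ B ∅ (i + 1))) +
        (finrank F (ZZ G ρ (A ∩ B) ∅ (i + 1)) + finrank F (BB G ρ (A ∩ B) ∅ i)) ≤
      (finrank F (ZZ G ρ A ∅ (i + 1)) + finrank F (ZZ G ρ B ∅ (i + 1))) +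
        (finrank F ↥((BB G ρ A ∅ (i + 1) ⊓ BB G ρ B ∅ (i + 1)) ⊓ KK G ρ (A ∩ B) ∅ (i + 1)) +
          finrank F ↥((BB G ρ A ∅ i ⊓ BB G ρ B ∅ i) ⊓ KK G ρ (A ∩ B) ∅ i)) := by
  have hrc : ∀ {n : ℕ} {c : Finset V → M}, c ∈ KK G ρ U ∅ n → c - res F A c ∈ KK G ρ B ∅ n := by
    intro n c h
    rw [mem_KK] at h ⊢
    refine ⟨fun T hT => ?_, fun T t ht => ?_⟩
    · by_cases hA : (T : Set V) ⊆ A
      · rw [Pi.sub_apply, res_of_sub c hA, sub_self]
      · rw [Pi.sub_apply, res_of_not c hA, sub_zero]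
        refine h.1 T fun h1 => hT ⟨h1.1, ?_, h1.2.2⟩
        exact (hcl T h1.1 h1.2.1).resolve_left hA
    · by_cases hA : (T : Set V) ⊆ A
      · rw [Pi.sub_apply, res_of_sub c hA, sub_self, map_zero, neg_zero]
      · rw [Pi.sub_apply, res_of_not c hA, sub_zero]
        exact h.2 T t ht
  have hra : ∀ {n : ℕ} {c : Finset V → M}, c ∈ KK G ρ U ∅ n → res F A c ∈ KK G ρ A ∅ n := fun h =>
    res_mem (KK_mono (Set.subset_univ _) _ h)
  have zmono : ∀ {A A' : Set V} (_ : A ⊆ A') (n : ℕ), ZZ G ρ A ∅ n ≤ ZZ G ρ A' ∅ n := fun h n =>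
    inf_le_inf_right _ (KK_mono h n)
  have hD : (ZZ G ρ (A ∩ B) ∅ (i + 1)).map (adg F) ≤ (ZZ G ρ A ∅ (i + 1)).prod (ZZ G ρ B ∅ (i + 1)) := by
    rintro _ ⟨z, hz, rfl⟩
    exact ⟨zmono Set.inter_subset_left _ hz, Submodule.neg_mem _ (zmono Set.inter_subset_right _ hz)⟩
  have hB1 : (BB G ρ A ∅ (i + 1)).prod (BB G ρ B ∅ (i + 1)) ≤ (ZZ G ρ A ∅ (i + 1)).prod (ZZ G ρ B ∅ (i + 1)) :=
    Submodule.prod_mono (BB_le_ZZ _ _ _ _ _) (BB_le_ZZ _ _ _ _ _)
  have key := mid F ((Finset V → M) × (Finset V → M)) (Finset V → M) (Finset V → M)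
    (LinearMap.coprod LinearMap.id LinearMap.id) ((bd F).comp (res F A))
    ((BB G ρ A ∅ (i + 1)).prod (BB G ρ B ∅ (i + 1)) ⊔ (ZZ G ρ (A ∩ B) ∅ (i + 1)).map (adg F))
    ((ZZ G ρ A ∅ (i + 1)).prod (ZZ G ρ B ∅ (i + 1)))
    (BB G ρ U ∅ (i + 1)) (ZZ G ρ U ∅ (i + 1)) (BB G ρ (A ∩ B) ∅ i)
    ((BB G ρ A ∅ i ⊓ BB G ρ B ∅ i) ⊓ KK G ρ (A ∩ B) ∅ i)
    (sup_le hB1 hD) (BB_le_ZZ _ _ _ _ _)
    (le_inf (le_inf (BB_mono Set.inter_subset_left _) (BB_mono Set.inter_subset_right _))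
      ((BB_le_ZZ _ _ _ _ _).trans inf_le_left))
    (by
      rw [Submodule.map_sup]
      refine sup_le ?_ ?_
      · rintro _ ⟨⟨a, b⟩, ⟨ha, hb⟩, rfl⟩
        exact Submodule.add_mem _ (BB_mono hA _ ha) (BB_mono hB _ hb)
      · rintro _ ⟨_, ⟨z, _, rfl⟩, rfl⟩
        show z + -z ∈ BB G ρ U ∅ (i + 1)
        rw [add_neg_cancel]
        exact Submodule.zero_mem _)
    (by
      rintro _ ⟨z, hz, rfl⟩
      have h1 : bd F z = 0 := hz.2
      have h2 : bd F (res F A z) = - bd F (z - res F A z) := by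
        rw [map_sub, h1, zero_sub, neg_neg]
      refine ⟨⟨⟨_, hra hz.1, rfl⟩, ?_⟩, inter_mem (bd_mem_KK (hra hz.1)) ?_⟩
      · show bd F (res F A z) ∈ _
        rw [h2]
        exact Submodule.neg_mem _ ⟨_, hrc hz.1, rfl⟩
      · show bd F (res F A z) ∈ _
        rw [h2]
        exact Submodule.neg_mem _ (bd_mem_KK (hrc hz.1)))
    (by
      rintro z hz ⟨e, he, hez⟩
      have h1 : bd F z = 0 := hz.2
      have h0 : bd F e = bd F (res F A z) := hez
      refine ⟨(res F A z - e, (z - res F A z) + e), ⟨⟨?_, ?_⟩, ⟨?_, ?_⟩⟩, 0, Submodule.zero_mem _, ?_⟩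
      · exact Submodule.sub_mem _ (hra hz.1) (KK_mono Set.inter_subset_left _ he)
      · show bd F (res F A z - e) = 0
        rw [map_sub, h0, sub_self]
      · exact Submodule.add_mem _ (hrc hz.1) (KK_mono Set.inter_subset_right _ he)
      · show bd F ((z - res F A z) + e) = 0
        rw [map_add, map_sub, h1, h0]; abel
      · show z = LinearMap.coprod LinearMap.id LinearMap.id (res F A z - e, (z - res F A z) + e) + 0
        rw [LinearMap.coprod_apply, LinearMap.id_apply, LinearMap.id_apply]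
        funext T
        simp only [Pi.add_apply, Pi.sub_apply, Pi.zero_apply]; abel)
  have k1 := Submodule.finrank_sup_add_finrank_inf_eq ((BB G ρ A ∅ (i + 1)).prod (BB G ρ B ∅ (i + 1)))
    ((ZZ G ρ (A ∩ B) ∅ (i + 1)).map (adg F))
  have k2 : finrank F ((ZZ G ρ (A ∩ B) ∅ (i + 1)).map (adg F)) = finrank F (ZZ G ρ (A ∩ B) ∅ (i + 1)) :=
    (Submodule.equivMapOfInjective (adg F) (adg_inj F) _).finrank_eq.symm
  have k3 : finrank F ↥((BB G ρ A ∅ (i + 1)).prod (BB G ρ B ∅ (i + 1)) ⊓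
      (ZZ G ρ (A ∩ B) ∅ (i + 1)).map (adg F)) ≤
      finrank F ↥((BB G ρ A ∅ (i + 1) ⊓ BB G ρ B ∅ (i + 1)) ⊓ KK G ρ (A ∩ B) ∅ (i + 1)) := by
    rw [(Submodule.equivMapOfInjective (adg F) (adg_inj F)
      ((BB G ρ A ∅ (i + 1) ⊓ BB G ρ B ∅ (i + 1)) ⊓ KK G ρ (A ∩ B) ∅ (i + 1))).finrank_eq]
    refine Submodule.finrank_mono ?_
    rintro _ ⟨⟨h1, h2⟩, z, hz, rfl⟩
    refine ⟨z, ⟨⟨h1, ?_⟩, hz.1⟩, rfl⟩
    have h3 : - z ∈ BB G ρ B ∅ (i + 1) := h2
    exact (Submodule.neg_mem_iff _).1 h3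
  have k4 := Submodule.finrank_mono (sup_le hB1 hD)
  have k5 : BB G ρ (A ∩ B) ∅ i ≤ ((BB G ρ A ∅ i ⊓ BB G ρ B ∅ i) ⊓ KK G ρ (A ∩ B) ∅ i) :=
    le_inf (le_inf (BB_mono Set.inter_subset_left _) (BB_mono Set.inter_subset_right _))
      ((BB_le_ZZ _ _ _ _ _).trans inf_le_left)
  have k6 := Submodule.finrank_mono k5
  have k7 := Submodule.finrank_mono (BB_le_ZZ G ρ U ∅ (i + 1))
  rw [k2, finrank_prod_sub] at k1
  rw [finrank_prod_sub] at key k4
  unfold beta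
  omega

/-- **The exact count for coning off.** -/
theorem cone_exact [FiniteDimensional F M] (G : SimpleGraph V) (ρ : V → M →ₗ[F] M) (A : Set V) (v : V)
    (hvA : v ∉ A) (j : ℕ) :
    finrank F (ZZ G ρ A ∅ (j + 1)) + finrank F ↥(BB G ρ A ∅ j ⊓ KK G ρ (A ∩ G.neighborSet v) {v} j) +
        finrank F ↥(BB G ρ A ∅ (j + 1) ⊓ KK G ρ (A ∩ G.neighborSet v) {v} (j + 1)) ≤
      beta G ρ (insert v A) ∅ (j + 1) + finrank F (BB G ρ (A ∩ G.neighborSet v) {v} j) +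
        finrank F (ZZ G ρ (A ∩ G.neighborSet v) {v} (j + 1)) + finrank F (BB G ρ A ∅ (j + 1)) := by
  have e0 : (insert v (∅ : Set V)) = {v} := insert_empty_eq v
  have h1 : BB G ρ A ∅ j ⊓ KK G ρ (A ∩ G.neighborSet v) {v} j ≤
      (ZZ G ρ (insert v A) ∅ (j + 1)).map (qq F v) := by
    rintro z ⟨⟨y, hy, hyz⟩, hz⟩
    have hz' : z ∈ KK G ρ (A ∩ G.neighborSet v) (insert v ∅) j := by rw [e0]; exact hz
    have hq := qq_lift hvA hz'
    have hl := lift_mem (A := A) hz'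
    have hb : bd F (lift v z) = z := by
      refine bd_lift v z ?_ fun T hT => (mem_KK.1 hz').1 T fun h => hvA (h.2.1 (by simpa using hT)).1
      rw [← hyz, bd_bd]
    have hy0 : qq F v y = 0 := by
      funext T
      by_cases hv : v ∈ T
      · rw [qq_of_mem _ hv]; rfl
      · rw [qq_of_not _ hv, (mem_KK.1 hy).1 (insert v T) fun h => hvA (h.2.1 (by simp)), smul_zero]; rfl
    refine ⟨lift v z - y, ⟨Submodule.sub_mem _ hl (KK_mono (Set.subset_insert _ _) _ hy), ?_⟩, ?_⟩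
    · show bd F (lift v z - y) = 0
      rw [map_sub, hb, hyz, sub_self]
    · rw [map_sub, hq, hy0, sub_zero]
  have h2 : (BB G ρ (insert v A) ∅ (j + 1)).map (qq F v) ≤ BB G ρ (A ∩ G.neighborSet v) {v} j := by
    rintro _ ⟨_, ⟨w, hw, rfl⟩, rfl⟩
    have hw' := qq_mem (F := F) hw
    rw [e0] at hw'
    refine ⟨- qq F v w, Submodule.neg_mem _ hw', ?_⟩
    rw [map_neg, qq_bd, neg_neg]
  -- kernels
  have rn : ∀ Z : Submodule F (Finset V → M), finrank F (Z.map (qq F v)) + finrank F ↥(Z ⊓ LinearMap.ker (qq F v)) =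
      finrank F Z := by
    intro Z
    have h3 := LinearMap.finrank_range_add_finrank_ker ((qq F v).domRestrict Z)
    rw [LinearMap.range_domRestrict, LinearMap.ker_domRestrict] at h3
    rw [← h3]
    congr 1
    rw [(Submodule.equivMapOfInjective Z.subtype Z.injective_subtype
      ((LinearMap.ker (qq F v)).comap Z.subtype)).finrank_eq, Submodule.map_comap_subtype]
  have h3 : ZZ G ρ A ∅ (j + 1) ≤ ZZ G ρ (insert v A) ∅ (j + 1) ⊓ LinearMap.ker (qq F v) := by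
    intro y hy
    refine ⟨⟨KK_mono (Set.subset_insert _ _) _ hy.1, hy.2⟩, ?_⟩
    show qq F v y = 0
    funext T
    by_cases hv : v ∈ T
    · rw [qq_of_mem _ hv]; rfl
    · rw [qq_of_not _ hv, (mem_KK.1 hy.1).1 (insert v T) fun h => hvA (h.2.1 (by simp)), smul_zero]; rfl
  have h4 : BB G ρ (insert v A) ∅ (j + 1) ⊓ LinearMap.ker (qq F v) ≤
      ZZ G ρ (A ∩ G.neighborSet v) {v} (j + 1) ⊔ BB G ρ A ∅ (j + 1) := by
    rintro y ⟨⟨w, hw, rfl⟩, hy⟩
    have hw' := qq_mem (F := F) hw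
    have hy' : qq F v (bd F w) = 0 := hy
    have hs : bd F (qq F v w) = 0 := by rw [qq_bd, hy', neg_zero]
    have hb : bd F (lift v (qq F v w)) = qq F v w :=
      bd_lift v _ hs fun T hT => qq_of_mem _ hT
    have hl := lift_mem (A := A) hw'
    have hA : w - lift v (qq F v w) ∈ KK G ρ A ∅ (j + 1 + 1) := by
      refine mem_of_qq (v := v) (Submodule.sub_mem _ hw hl) ?_
      rw [map_sub, qq_lift hvA hw', sub_self]
    have : bd F w = qq F v w + bd F (w - lift v (qq F v w)) := by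
      rw [map_sub, hb]; abel
    rw [this]
    rw [e0] at hw'
    exact Submodule.add_mem_sup ⟨hw', hs⟩ ⟨_, hA, rfl⟩
  have h5 := Submodule.finrank_sup_add_finrank_inf_eq (ZZ G ρ (A ∩ G.neighborSet v) {v} (j + 1))
    (BB G ρ A ∅ (j + 1))
  have h6 : BB G ρ A ∅ (j + 1) ⊓ KK G ρ (A ∩ G.neighborSet v) {v} (j + 1) ≤
      ZZ G ρ (A ∩ G.neighborSet v) {v} (j + 1) ⊓ BB G ρ A ∅ (j + 1) := by
    rintro z ⟨hz1, hz2⟩
    exact ⟨⟨hz2, (BB_le_ZZ _ _ _ _ _ hz1).2⟩, hz1⟩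
  have r1 := rn (ZZ G ρ (insert v A) ∅ (j + 1))
  have r2 := rn (BB G ρ (insert v A) ∅ (j + 1))
  have f1 := Submodule.finrank_mono h1
  have f2 := Submodule.finrank_mono h2
  have f3 := Submodule.finrank_mono h3
  have f4 := Submodule.finrank_mono h4
  have f6 := Submodule.finrank_mono h6
  have f7 := Submodule.finrank_mono (BB_le_ZZ G ρ (insert v A) ∅ (j + 1))
  unfold beta
  omega

end

end Pool.Agent.W5h83.GT
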