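import Pool.Agent.W907.SG.All

/-!
# `ℓ²` dimensions of kernels of local operators: definitions and statements
-/

set_option autoImplicit false

namespace Pool.Agent.W5h83.GT

open Module Pool.Agent.W907.SG
open scoped ENNReal

/-- the `ℓ²` kernel of a local operator -/
def KerL {Γ 𝓣 𝓣' J : Type} [Group Γ] [Fintype 𝓣] [Fintype J] (γ : J → Γ) (b : J → 𝓣' → 𝓣 → ℤ) :
    Set (lp (fun _ : Γ × 𝓣 => ℝ) 2) :=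
  {c | ∀ g τ', ∑ j, ∑ τ, (b j τ' τ : ℝ) * (c : Γ × 𝓣 → ℝ) (g * γ j, τ) = 0}

open Classical in
/-- the dimension of the `ℓ²` kernel of a local operator -/
noncomputable def dimL {Γ 𝓣 𝓣' J : Type} [Group Γ] [Fintype 𝓣] [Fintype J] (γ : J → Γ) (b : J → 𝓣' → 𝓣 → ℤ) : ℝ :=
  ∑ τ : 𝓣, (1 - Metric.infDist (lp.single 2 ((1 : Γ), τ) (1 : ℝ) : lp (fun _ : Γ × 𝓣 => ℝ) 2) (KerL γ b) ^ 2)

/-- KAZN: numerical form of `S_KAZ` -/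
def S_KAZN : Prop := ∀ (Γ 𝓣 𝓣' J : Type) [Group Γ] [Fintype 𝓣] [Fintype 𝓣'] [Fintype J]
    (γ : J → Γ) (b : J → 𝓣' → 𝓣 → ℤ) (ε : ℝ), 0 < ε →
    ∃ E : Finset Γ, (1 : Γ) ∉ E ∧ ∀ (X : Type) [Fintype X] (act : X → Γ → X),
      (∀ x, act x 1 = x) → (∀ x g h, act x (g * h) = act (act x g) h) → (∀ g ∈ E, ∀ x, act x g ≠ x) →
      ∀ K : Submodule ℝ (X → 𝓣 → ℝ), (∀ c, c ∈ K ↔ ∀ x τ', ∑ j, ∑ τ, (b j τ' τ : ℝ) * c (act x (γ j)) τ = 0) →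
        (finrank ℝ K : ℝ) ≤ (dimL γ b + ε) * Fintype.card X

/-- LUEN: numerical form of `S_LUECK` -/
def S_LUEN : Prop := ∀ (Γ 𝓣 𝓣' J : Type) [Group Γ] [Fintype 𝓣] [Fintype 𝓣'] [Fintype J]
    (γ : J → Γ) (b : J → 𝓣' → 𝓣 → ℤ) (r : ℝ),
    (∀ (ε : ℝ), 0 < ε → ∀ E : Finset Γ, (1 : Γ) ∉ E → ∃ (X : Type) (_ : Fintype X) (_ : Nonempty X) (act : X → Γ → X),
      (∀ x, act x 1 = x) ∧ (∀ x g h, act x (g * h) = act (act x g) h) ∧ (∀ g ∈ E, ∀ x, act x g ≠ x) ∧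
      ∃ K : Submodule ℝ (X → 𝓣 → ℝ), (∀ c, c ∈ K ↔ ∀ x τ', ∑ j, ∑ τ, (b j τ' τ : ℝ) * c (act x (γ j)) τ = 0) ∧
        (finrank ℝ K : ℝ) ≤ (r + ε) * Fintype.card X) →
    dimL γ b ≤ r

end Pool.Agent.W5h83.GT
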