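import Pool.Agent.W5h83.GT.Hilb

/-!
# Orthogonality of coefficients, reflections
-/

set_option autoImplicit false

namespace Pool.Agent.W5h83.GT

open Module Pool.Agent.W907.SG Filter Topology
open scoped ENNReal InnerProductSpace

section
open Classical

variable {ι E : Type} [Fintype ι] [Fintype E] (c : ι → E)

theorem sq_summ (x : HS ι E) (i : ι) : Summable fun g : FP E => (x : FP E × ι → ℝ) (g, i) ^ 2 := by
  have h1 := lp.summable_inner (𝕜 := ℝ) x x
  have h2 := h1.comp_injective (i := fun g : FP E => (g, i)) (fun a b h => congrArg Prod.fst h)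
  refine h2.congr fun g => ?_
  simp [Function.comp, pow_two]

theorem mul_summ (x y : HS ι E) (h : FP E) (i : ι) :
    Summable fun g : FP E => (x : FP E × ι → ℝ) (h * g, i) * (y : FP E × ι → ℝ) (g, i) := by
  have h1 : Summable fun g : FP E => (x : FP E × ι → ℝ) (h * g, i) ^ 2 :=
    (Equiv.summable_iff (Equiv.mulLeft h) (f := fun g : FP E => (x : FP E × ι → ℝ) (g, i) ^ 2)).2 (sq_summ x i)
  refine Summable.of_norm_bounded (h1.add (sq_summ y i)) fun g => ?_
  rw [Real.norm_eq_abs, abs_mul]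
  nlinarith [sq_nonneg (|(x : FP E × ι → ℝ) (h * g, i)| - |(y : FP E × ι → ℝ) (g, i)|),
    sq_abs ((x : FP E × ι → ℝ) (h * g, i)), sq_abs ((y : FP E × ι → ℝ) (g, i)),
    sq_nonneg ((x : FP E × ι → ℝ) (h * g, i)), sq_nonneg ((y : FP E × ι → ℝ) (g, i))]

/-- **Orthogonality of the coefficients.** -/
theorem orth {K1 K2 : Submodule ℝ (ι → ℝ)} {p1 p2 : (ι → ℝ) →ₗ[ℝ] (ι → ℝ)} (h1 : IsPr K1 p1) (h2 : IsPr K2 p2)
    (x y : HS ι E) (hx1 : ∀ g, (fun j => (x : FP E × ι → ℝ) (g, j)) ∈ K1)
    (hx2 : ∀ g, (fun j => (x : FP E × ι → ℝ) (t2 c (g, j))) ∈ K2)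
    (hy1 : o1 (FP E) p1 y = 0) (hy2 : o2 aU c p2 y = 0) (h g : FP E) (e : E) :
    ∑ i, (if c i = e then (x : FP E × ι → ℝ) (h * g, i) * (y : FP E × ι → ℝ) (g, i) else 0) = 0 := by
  refine tree (fun e g => ∑ i, (if c i = e then (x : FP E × ι → ℝ) (h * g, i) * (y : FP E × ι → ℝ) (g, i) else 0))
    (fun e => ?_) (fun g => ?_) (fun g => ?_) e g
  · refine summable_sum fun i _ => ?_
    by_cases hi : c i = e
    · simp only [if_pos hi]
      exact mul_summ x y h i
    · simp only [if_neg hi]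
      exact summable_zero
  · rw [Finset.sum_comm]
    simp only [Finset.sum_ite_eq, Finset.mem_univ, if_true]
    have e1 := h1.dp (fun j => (y : FP E × ι → ℝ) (g, j)) (hx1 (h * g))
    have e2 : p1 (fun j => (y : FP E × ι → ℝ) (g, j)) = 0 := by
      funext i
      exact congrFun hy1 (g, i)
    rw [e2, zero_dotProduct] at e1
    rw [← e1.symm]
    unfold dotProduct
    exact Finset.sum_congr rfl fun i _ => mul_comm _ _
  · rw [Finset.sum_comm]
    have e0 : ∀ i, (∑ e, (if c i = e then (x : FP E × ι → ℝ) (h * (g * sf e), i) *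
        (y : FP E × ι → ℝ) (g * sf e, i) else 0)) = (x : FP E × ι → ℝ) (t2 c (h * g, i)) *
        (y : FP E × ι → ℝ) (t2 c (g, i)) := by
      intro i
      rw [Finset.sum_ite_eq Finset.univ (c i) (fun e => (x : FP E × ι → ℝ) (h * (g * sf e), i) *
        (y : FP E × ι → ℝ) (g * sf e, i)), if_pos (Finset.mem_univ _), ← mul_assoc]
      rfl
    simp only [e0]
    have e1 := h2.dp (fun j => (y : FP E × ι → ℝ) (t2 c (g, j))) (hx2 (h * g))
    have e2 : p2 (fun j => (y : FP E × ι → ℝ) (t2 c (g, j))) = 0 := by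
      funext i
      have e3 := congrFun hy2 (t2 c (g, i))
      rw [o2_apply] at e3
      have e4 : (fun j => (y : FP E × ι → ℝ) (aU (c j) (aU (c (t2 c (g, i)).2) (t2 c (g, i)).1), j)) =
          fun j => (y : FP E × ι → ℝ) (t2 c (g, j)) := by
        funext j
        show (y : FP E × ι → ℝ) (g * sf (c i) * sf (c i) * sf (c j), j) = (y : FP E × ι → ℝ) (g * sf (c j), j)
        rw [mul_assoc g, sf_sf, mul_one]
      rw [e4] at e3
      exact e3
    rw [e2, zero_dotProduct] at e1
    rw [← e1.symm]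
    unfold dotProduct
    exact Finset.sum_congr rfl fun i _ => mul_comm _ _

theorem norm_refl {H : Type} [NormedAddCommGroup H] [InnerProductSpace ℝ H] {A B : Submodule ℝ H}
    [A.HasOrthogonalProjection] [B.HasOrthogonalProjection] (h : A ≤ B) :
    ‖(2 : ℝ) • A.starProjection - B.starProjection‖ ≤ 1 := by
  refine ContinuousLinearMap.opNorm_le_bound _ zero_le_one fun x => ?_
  rw [one_mul]
  have h1 : ⟪A.starProjection x, B.starProjection x⟫_ℝ = ⟪A.starProjection x, A.starProjection x⟫_ℝ := by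
    have e1 := Submodule.starProjection_inner_eq_zero (K := B) x (A.starProjection x)
      (h (Submodule.starProjection_apply_mem _ _))
    have e2 := Submodule.starProjection_inner_eq_zero (K := A) x (A.starProjection x)
      (Submodule.starProjection_apply_mem _ _)
    rw [inner_sub_left] at e1 e2
    rw [real_inner_comm]
    linarith
  have h2 : ‖((2 : ℝ) • A.starProjection - B.starProjection) x‖ ^ 2 = ‖B.starProjection x‖ ^ 2 := by
    show ‖(2 : ℝ) • A.starProjection x - B.starProjection x‖ ^ 2 = _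
    rw [norm_sub_sq_real, inner_smul_left, h1, norm_smul, real_inner_self_eq_norm_sq]
    simp
    ring
  have h3 : ‖((2 : ℝ) • A.starProjection - B.starProjection) x‖ = ‖B.starProjection x‖ := by
    have := congrArg Real.sqrt h2
    rwa [Real.sqrt_sq (norm_nonneg _), Real.sqrt_sq (norm_nonneg _)] at this
  rw [h3]
  exact Submodule.norm_starProjection_apply_le _ _

theorem avg_fix {H : Type} [NormedAddCommGroup H] [InnerProductSpace ℝ H] {A B : Submodule ℝ H}
    [A.HasOrthogonalProjection] [B.HasOrthogonalProjection] (x : H) :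
    ((1 / 2 : ℝ) • (A.starProjection + B.starProjection)) x = x ↔ x ∈ A ⊓ B := by
  constructor
  · intro h
    have h0 : (1 / 2 : ℝ) • (A.starProjection x + B.starProjection x) = x := h
    have hA : ⟪x, A.starProjection x⟫_ℝ = ‖A.starProjection x‖ ^ 2 := by
      have e := Submodule.starProjection_inner_eq_zero (K := A) x (A.starProjection x)
        (Submodule.starProjection_apply_mem _ _)
      rw [inner_sub_left, real_inner_self_eq_norm_sq] at e
      linarith
    have hB : ⟪x, B.starProjection x⟫_ℝ = ‖B.starProjection x‖ ^ 2 := by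
      have e := Submodule.starProjection_inner_eq_zero (K := B) x (B.starProjection x)
        (Submodule.starProjection_apply_mem _ _)
      rw [inner_sub_left, real_inner_self_eq_norm_sq] at e
      linarith
    have hx : ‖x‖ ^ 2 = 1 / 2 * (‖A.starProjection x‖ ^ 2 + ‖B.starProjection x‖ ^ 2) := by
      rw [← hA, ← hB, ← inner_add_right, ← real_inner_self_eq_norm_sq]
      conv_lhs => rw [← h0]
      rw [h0, ← inner_smul_right, h0]
    have e1 : ‖x - A.starProjection x‖ ^ 2 = ‖x‖ ^ 2 - ‖A.starProjection x‖ ^ 2 := by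
      rw [norm_sub_sq_real, hA]; ring
    have e2 : ‖x - B.starProjection x‖ ^ 2 = ‖x‖ ^ 2 - ‖B.starProjection x‖ ^ 2 := by
      rw [norm_sub_sq_real, hB]; ring
    have e3 : ‖x - A.starProjection x‖ ^ 2 = 0 := by nlinarith [sq_nonneg ‖x - A.starProjection x‖, sq_nonneg ‖x - B.starProjection x‖]
    have e4 : ‖x - B.starProjection x‖ ^ 2 = 0 := by nlinarith [sq_nonneg ‖x - A.starProjection x‖, sq_nonneg ‖x - B.starProjection x‖]
    rw [sq_eq_zero_iff, norm_eq_zero, sub_eq_zero] at e3 e4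
    exact ⟨Submodule.starProjection_eq_self_iff.1 e3.symm, Submodule.starProjection_eq_self_iff.1 e4.symm⟩
  · rintro ⟨h1, h2⟩
    show (1 / 2 : ℝ) • (A.starProjection x + B.starProjection x) = x
    rw [Submodule.starProjection_eq_self_iff.2 h1, Submodule.starProjection_eq_self_iff.2 h2, ← two_smul ℝ x,
      smul_smul]
    norm_num

theorem avg_norm {H : Type} [NormedAddCommGroup H] [InnerProductSpace ℝ H] {A B : Submodule ℝ H}
    [A.HasOrthogonalProjection] [B.HasOrthogonalProjection] :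
    ‖(1 / 2 : ℝ) • (A.starProjection + B.starProjection)‖ ≤ 1 := by
  rw [norm_smul]
  have h1 := A.starProjection_norm_le
  have h2 := B.starProjection_norm_le
  have h3 := norm_add_le A.starProjection B.starProjection
  rw [Real.norm_eq_abs, abs_of_pos (by norm_num)]
  linarith

/-- homogeneous subspaces -/
def Hom (V : Submodule ℝ (ι → ℝ)) : Prop := ∀ x ∈ V, ∀ e : E, (fun i => if c i = e then x i else 0) ∈ V

variable {c}

theorem pr_col {V : Submodule ℝ (ι → ℝ)} (hV : Hom c V) {p : (ι → ℝ) →ₗ[ℝ] (ι → ℝ)} (hp : IsPr V p)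
    (h : ι → ℝ) (e : E) : p (fun i => if c i = e then h i else 0) = fun i => if c i = e then p h i else 0 := by
  refine hp.uniq (hV _ (hp.mem h) e) fun v hv => ?_
  have h1 := hp.orth h _ (hV v hv e)
  refine Eq.trans ?_ h1
  unfold dotProduct
  refine Finset.sum_congr rfl fun i _ => ?_
  show ((if c i = e then h i else 0) - (if c i = e then p h i else 0)) * v i =
    (h i - p h i) * (if c i = e then v i else 0)
  split_ifs <;> ring

theorem o2_eq_o1 {Z : Type} {a : E → Z → Z} (ha : ∀ e z, a e (a e z) = z) {V : Submodule ℝ (ι → ℝ)}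
    (hV : Hom c V) {p : (ι → ℝ) →ₗ[ℝ] (ι → ℝ)} (hp : IsPr V p) : o2 a c p = o1 Z p := by
  refine LinearMap.ext fun x => funext fun z => ?_
  rw [o2_apply, o1_apply]
  have key : ∀ h : ι → ℝ, p h z.2 = p (fun i => if c i = c z.2 then h i else 0) z.2 := by
    intro h
    rw [pr_col hV hp h (c z.2)]
    simp
  rw [key, key (fun j => x (z.1, j))]
  refine congrFun (congrArg p (funext fun j => ?_)) _
  by_cases hj : c j = c z.2
  · rw [if_pos hj, if_pos hj, hj, ha]
  · rw [if_neg hj, if_neg hj]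

theorem pr_le {A B : Submodule ℝ (ι → ℝ)} (h : A ≤ B) {p q : Module.End ℝ (ι → ℝ)} (hp : IsPr A p)
    (hq : IsPr B q) : p * q = p ∧ q * p = p := by
  refine ⟨LinearMap.ext fun x => ?_, LinearMap.ext fun x => hq.of_mem (h (hp.mem x))⟩
  show p (q x) = p x
  refine (hp.uniq (hp.mem _) fun v hv => ?_).symm
  rw [sub_dotProduct, hp.dp _ hv, hq.dp _ (h hv), sub_self]

/-- the reflection of `B` at `A` -/
theorem refl_mul {A B : Submodule ℝ (ι → ℝ)} (h : A ≤ B) {p q : Module.End ℝ (ι → ℝ)} (hp : IsPr A p)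
    (hq : IsPr B q) : ((2 : ℝ) • p - q) * ((2 : ℝ) • p - q) = q ∧ ((2 : ℝ) • p - q) * q = (2 : ℝ) • p - q ∧
      q * ((2 : ℝ) • p - q) = (2 : ℝ) • p - q := by
  obtain ⟨h1, h2⟩ := pr_le h hp hq
  have h3 : p * p = p := LinearMap.ext hp.idem
  have h4 : q * q = q := LinearMap.ext hq.idem
  refine ⟨?_, ?_, ?_⟩
  · rw [sub_mul, mul_sub, mul_sub, smul_mul_smul_comm, smul_mul_assoc, mul_smul_comm, h1, h2, h3, h4]
    module
  · rw [sub_mul, smul_mul_assoc, h1, h4]
  · rw [mul_sub, mul_smul_comm, h2, h4]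

theorem nt_o1 (p : (ι → ℝ) →ₗ[ℝ] (ι → ℝ)) : nt (E := E) (o1 (FP E) p) = LinearMap.trace ℝ (ι → ℝ) p := by
  rw [tr_eq]
  unfold nt
  refine Finset.sum_congr rfl fun i _ => ?_
  rw [o1_apply]
  refine congrFun (congrArg p (funext fun j => ?_)) _
  by_cases h : j = i
  · rw [h, Pi.single_eq_same, Pi.single_eq_same]
  · rw [Pi.single_eq_of_ne h, Pi.single_eq_of_ne (fun e => h (congrArg Prod.snd e))]

theorem nt_o2 (p : (ι → ℝ) →ₗ[ℝ] (ι → ℝ)) : nt (o2 aU c p) = LinearMap.trace ℝ (ι → ℝ) p := by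
  rw [tr_eq]
  unfold nt
  refine Finset.sum_congr rfl fun i _ => ?_
  rw [o2_apply]
  refine congrFun (congrArg p (funext fun j => ?_)) _
  show (Pi.single (1, i) 1 : FP E × ι → ℝ) (1 * sf (c i) * sf (c j), j) = _
  by_cases h : j = i
  · rw [h, one_mul, sf_sf, Pi.single_eq_same, Pi.single_eq_same]
  · rw [Pi.single_eq_of_ne h, Pi.single_eq_of_ne (fun e => h (congrArg Prod.snd e))]

end

end Pool.Agent.W5h83.GT
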