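import Pool.Agent.W5h83.GT.Main1

/-!
# Statements of two lemmas
-/

set_option autoImplicit false

namespace Pool.Agent.W5h83.GT

open Module Pool.Agent.W907.SG

/-- functions with values in `V` -/
def PV (F : Type) {ι : Type} (V : Submodule ℝ (ι → ℝ)) : Submodule ℝ (F × ι → ℝ) where
  carrier := {w | ∀ f, (fun j => w (f, j)) ∈ V}
  add_mem' h h' f := V.add_mem (h f) (h' f)
  zero_mem' _ := V.zero_mem
  smul_mem' r _ h f := V.smul_mem r (h f)

/-- antiinvariant functions -/
def An {ι E F : Type} (a : E → F → F) (c : ι → E) : Submodule ℝ (F × ι → ℝ) where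
  carrier := {w | ∀ f j, w (a (c j) f, j) = - w (f, j)}
  add_mem' {x y} h h' f j := by
    show x (a (c j) f, j) + y (a (c j) f, j) = - (x (f, j) + y (f, j))
    rw [h f j, h' f j]; ring
  zero_mem' f j := by simp
  smul_mem' r x h f j := by
    show r * x (a (c j) f, j) = - (r * x (f, j))
    rw [h f j]; ring

/-- HALF: the antiinvariant functions with values in a homogeneous subspace are one half of all functions -/
def S_HALF : Prop := ∀ (ι E F : Type) [Fintype ι] [Fintype E] [Fintype F] (a : E → F → F) (c : ι → E) (sg : E → F → Bool),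
    (∀ e f, a e (a e f) = f) → (∀ e f, sg e (a e f) = !(sg e f)) →
    ∀ V : Submodule ℝ (ι → ℝ), Hom c V →
      finrank ℝ (PV F V) = Fintype.card F * finrank ℝ V ∧
      2 * finrank ℝ ↥(PV F V ⊓ An a c) = Fintype.card F * finrank ℝ V

/-- WORD: finite sets with action of the right-angled Coxeter group of `G`, with a colour `e` invariant under the
neighbours of `v0`, on which given elements act without fixed points; moreover they act without fixed points on
`X × F` if `v0` acts by `(x, f) ↦ (x, τ (e x) f)` and the other generators by `(x, f) ↦ (a v x, f)`, for all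
sufficiently free sets `F` with involutions `τ` -/
def S_WORD : Prop := ∀ (V : Type) [Fintype V] (G : SimpleGraph V) (v0 : V) (E0 : Finset (W G)), (1 : W G) ∉ E0 →
    ∃ (X : Type) (_ : Fintype X) (_ : Nonempty X) (a : V → X → X) (sgn : V → X → Bool) (E : Type) (_ : Fintype E)
      (e : X → E) (R : Finset (FP E)),
      (∀ v x, a v (a v x) = x) ∧ (∀ u v, G.Adj u v → ∀ x, a u (a v x) = a v (a u x)) ∧
      (∀ v x, sgn v (a v x) = !(sgn v x)) ∧ (∀ u v, u ≠ v → ∀ x, sgn u (a v x) = sgn u x) ∧
      (∀ v, G.Adj v0 v → ∀ x, e (a v x) = e x) ∧ (1 : FP E) ∉ R ∧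
      (∀ ev : X → W G → X, (∀ x, ev x 1 = x) → (∀ x g h, ev x (g * h) = ev (ev x g) h) →
        (∀ x v, ev x ((cox G).simple v) = a v x) → ∀ g ∈ E0, ∀ x, ev x g ≠ x) ∧
      ∀ (F : Type) (τ : E → F → F) (eF : F → FP E → F), (∀ f, eF f 1 = f) →
        (∀ f g h, eF f (g * h) = eF (eF f g) h) → (∀ f e, eF f (sf e) = τ e f) →
        (∀ h ∈ R, ∀ f, eF f h ≠ f) →
        ∀ b : V → X × F → X × F, (∀ v, v ≠ v0 → ∀ z, b v z = (a v z.1, z.2)) →
          (∀ z, b v0 z = (z.1, τ (e z.1) z.2)) →
          ∀ ev : X × F → W G → X × F, (∀ z, ev z 1 = z) → (∀ z g h, ev z (g * h) = ev (ev z g) h) →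
            (∀ z v, ev z ((cox G).simple v) = b v z) → ∀ g ∈ E0, ∀ z, ev z g ≠ z

end Pool.Agent.W5h83.GT
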