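import Pool.Agent.W5h83.GT.Top2

/-!
# Gluing along a link
-/

set_option autoImplicit false
set_option linter.unusedSectionVars false

namespace Pool.Agent.W5h83.GT

open Module Pool.Agent.W907.SG
open Pool.Agent.TH652.Glue (KK_mono BB_mono)
open Pool.Agent.R781.VS (l2van_of exists_ev)
open Pool.Agent.W338.SG (small_restrict)

theorem l2van_real {V : Type} [Fintype V] [LinearOrder V] (G : SimpleGraph V) (i : ℕ)
    (h : ∀ N : ℕ, ∃ (X : Type) (_ : Fintype X) (_ : Nonempty X) (a : V → X → X) (sgn : V → X → Bool),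
      (∀ v x, a v (a v x) = x) ∧ (∀ u v, G.Adj u v → ∀ x, a u (a v x) = a v (a u x)) ∧
      (∀ v x, sgn v (a v x) = !(sgn v x)) ∧ (∀ u v, u ≠ v → ∀ x, sgn u (a v x) = sgn u x) ∧
      N * beta G (pull ℝ a) Set.univ ∅ i ≤ Fintype.card X) : L2Van G i := by
  refine l2van_of large nilp charT mlp G i fun N => ?_
  obtain ⟨X, i1, i2, a, sgn, k1, k2, k3, k4, k5⟩ := h N
  obtain ⟨-, P0, hP0⟩ := charT V X G a sgn k1 k2 k3 k4 i
  obtain ⟨p, hp, hpp⟩ := Nat.exists_infinite_primes (max P0 3)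
  have hF : Fact p.Prime := ⟨hpp⟩
  have hp2 : p ≠ 2 := by
    have := (le_max_right P0 3).trans hp
    omega
  exact ⟨p, hF, hp2, X, i1, i2, a, sgn, k1, k2, k3, k4,
    (Nat.mul_le_mul_left N (hP0 p ((le_max_left _ _).trans hp))).trans k5⟩

section conj
variable {V Y : Type} [Fintype V] [LinearOrder V] {G : SimpleGraph V}

theorem KK_conj {b1 b2 : V → Y → Y} (Θ : Y → Y) {A S : Set V}
    (h : ∀ v ∈ A ∪ S, ∀ z, Θ (b1 v z) = b2 v (Θ z)) {i : ℕ} {y : Finset V → Y → ℝ}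
    (hy : y ∈ KK G (pull ℝ b2) A S i) : (fun T z => y T (Θ z)) ∈ KK G (pull ℝ b1) A S i := by
  rw [mem_KK] at hy ⊢
  refine ⟨fun T hT => funext fun z => congrFun (hy.1 T hT) (Θ z), fun T t ht => ?_⟩
  funext z
  by_cases hT : (T : Set V) ⊆ A
  · have htA : t ∈ A ∪ S := by
      rcases ht with h1 | h1
      · exact Or.inl (hT h1)
      · exact Or.inr h1
    have h1 := congrFun (hy.2 T t ht) (Θ z)
    rw [pull_apply] at h1 ⊢
    rw [h t htA]
    exact h1
  · have e0 : y T = 0 := hy.1 T fun h1 => hT h1.2.1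
    rw [pull_apply, Pi.neg_apply, e0]; simp

theorem BB_conj {b1 b2 : V → Y → Y} (Θ : Y → Y) {A S : Set V}
    (h : ∀ v ∈ A ∪ S, ∀ z, Θ (b1 v z) = b2 v (Θ z)) {i : ℕ} {y : Finset V → Y → ℝ}
    (hy : y ∈ BB G (pull ℝ b2) A S i) : (fun T z => y T (Θ z)) ∈ BB G (pull ℝ b1) A S i := by
  obtain ⟨w, hw, rfl⟩ := hy
  refine ⟨_, KK_conj Θ h hw, ?_⟩
  funext T z
  rw [bd_apply, bd_apply, Finset.sum_apply, Finset.sum_apply]
  rfl

theorem KK_congr {b1 b2 : V → Y → Y} {A S : Set V} (h : ∀ v ∈ A ∪ S, b1 v = b2 v) (i : ℕ) :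
    KK G (pull ℝ b1) A S i = KK G (pull ℝ b2) A S i := by
  refine le_antisymm (fun y hy => ?_) (fun y hy => ?_)
  · exact KK_conj (b1 := b2) (b2 := b1) id (fun v hv z => by rw [h v hv]; rfl) hy
  · exact KK_conj (b1 := b1) (b2 := b2) id (fun v hv z => by rw [h v hv]; rfl) hy

theorem BB_congr {b1 b2 : V → Y → Y} {A S : Set V} (h : ∀ v ∈ A ∪ S, b1 v = b2 v) (i : ℕ) :
    BB G (pull ℝ b1) A S i = BB G (pull ℝ b2) A S i := by
  unfold BB
  rw [KK_congr h]

theorem beta_congr {b1 b2 : V → Y → Y} {A S : Set V} (h : ∀ v ∈ A ∪ S, b1 v = b2 v) (i : ℕ) :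
    beta G (pull ℝ b1) A S i = beta G (pull ℝ b2) A S i := by
  unfold beta ZZ
  rw [KK_congr h, BB_congr h]

end conj

set_option maxHeartbeats 4000000 in
theorem glue_link_aux (word : S_WORD) (half : S_HALF) {V : Type} [Fintype V] [LinearOrder V] (G : SimpleGraph V)
    (v0 : V) (A B : Set V) [Fintype A] [Fintype B] [Fintype ↥(insert v0 A)] [Fintype ↥(insert v0 B)]
    [Fintype ↥({v0}ᶜ : Set V)] (hA : v0 ∉ A) (hB : v0 ∉ B) (hAB : A ∪ B = {v0}ᶜ)
    (hno : ∀ x ∈ A, x ∉ B → ∀ y ∈ B, y ∉ A → ¬ G.Adj x y) (hS : G.neighborSet v0 = A ∩ B) (j : ℕ)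
    (h1 : L2Van (G.induce A) (j + 1)) (h2 : L2Van (G.induce B) (j + 1))
    (h3 : L2Van (G.induce (insert v0 A)) (j + 1)) (h4 : L2Van (G.induce (insert v0 B)) (j + 1)) :
    L2Van (G.induce ({v0}ᶜ : Set V)) (j + 1) := by
  classical
  refine l2van_real _ _ fun N => ?_
  have hN0 : 0 < 5 * (N + 1) := by omega
  obtain ⟨N0, hN0e⟩ : ∃ N0, N0 = 5 * (N + 1) := ⟨_, rfl⟩
  rw [← hN0e] at hN0
  have h3' : Nat.Prime 3 := Nat.prime_three
  have : Fact (Nat.Prime 3) := ⟨h3'⟩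
  obtain ⟨E1, hE1, hX1⟩ := small_restrict small tr G A (j + 1) h1 N0
  obtain ⟨E2, hE2, hX2⟩ := small_restrict small tr G B (j + 1) h2 N0
  obtain ⟨E3, hE3, hX3⟩ := small_restrict small tr G (insert v0 A) (j + 1) h3 N0
  obtain ⟨E4, hE4, hX4⟩ := small_restrict small tr G (insert v0 B) (j + 1) h4 N0
  obtain ⟨X, iX, iXn, a, sgn, E, iE, e, R, k1, k2, k3, k4, k5, k6, k7, k8⟩ :=
    word V G v0 (E1 ∪ (E2 ∪ (E3 ∪ E4))) (by
      rw [Finset.mem_union, Finset.mem_union, Finset.mem_union]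
      exact fun h => h.elim hE1 fun h => h.elim hE2 fun h => h.elim hE3 hE4)
  have m1 : ∀ g ∈ E1, g ∈ E1 ∪ (E2 ∪ (E3 ∪ E4)) := fun g hg => by simp [hg]
  have m2 : ∀ g ∈ E2, g ∈ E1 ∪ (E2 ∪ (E3 ∪ E4)) := fun g hg => by simp [hg]
  have m3 : ∀ g ∈ E3, g ∈ E1 ∪ (E2 ∪ (E3 ∪ E4)) := fun g hg => by simp [hg]
  have m4 : ∀ g ∈ E4, g ∈ E1 ∪ (E2 ∪ (E3 ∪ E4)) := fun g hg => by simp [hg]
  have hvS : v0 ∉ A ∩ B := fun h => hA h.1
  have heS : ∀ v ∈ A ∩ B, ∀ x, e (a v x) = e x := fun v hv => k5 v (by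
    have : v ∈ G.neighborSet v0 := by rw [hS]; exact hv
    exact this)
  have hAN : A ∩ G.neighborSet v0 = A ∩ B := by rw [hS]; ext x; simp only [Set.mem_inter_iff]; tauto
  have hBN : B ∩ G.neighborSet v0 = A ∩ B := by rw [hS]; ext x; simp only [Set.mem_inter_iff]; tauto
  -- the auxiliary set
  obtain ⟨F1, iF1, iF1n, P1, eF, f1, f2, f3, f4⟩ := nilp 3 E (⊥ : SimpleGraph E) R (by decide) k6
  obtain ⟨b, hb, hb0⟩ : ∃ b : V → X × F1 → X × F1, (∀ v, v ≠ v0 → ∀ z, b v z = (a v z.1, z.2)) ∧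
      ∀ z, b v0 z = (z.1, P1.a (e z.1) z.2) :=
    ⟨fun v z => if v = v0 then (z.1, P1.a (e z.1) z.2) else (a v z.1, z.2), fun v hv z => if_neg hv,
      fun z => if_pos rfl⟩
  have hbi : ∀ v z, b v (b v z) = z := by
    intro v z
    by_cases hv : v = v0
    · rw [hv, hb0, hb0, P1.inv]
    · rw [hb v hv, hb v hv, k1]
  have hbc : ∀ u v, G.Adj u v → ∀ z, b u (b v z) = b v (b u z) := by
    intro u v huv z
    by_cases hu : u = v0
    · have hv : v ≠ v0 := fun h => huv.ne (hu.trans h.symm)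
      rw [hu] at huv ⊢
      rw [hb v hv, hb0, hb0, hb v hv, k5 v huv]
    · by_cases hv : v = v0
      · rw [hv] at huv ⊢
        rw [hb u hu, hb0, hb0, hb u hu, k5 u huv.symm]
      · rw [hb v hv, hb u hu, hb u hu, hb v hv, k2 u v huv]
  obtain ⟨evb, g1, g2, g3⟩ := exists_ev G b hbi hbc
  have hfree := k8 F1 P1.a eF f1 f2 f3 f4 b hb hb0 evb g1 g2 g3
  have s3 := hX3 (X × F1) b evb hbi hbc g1 g2 g3 (fun g hg => hfree g (m3 g hg))
  have s4 := hX4 (X × F1) b evb hbi hbc g1 g2 g3 (fun g hg => hfree g (m4 g hg))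
  -- the subspaces
  obtain ⟨K1, hK1⟩ : ∃ K, K = uc (BB G (pull ℝ a) A ∅ j ⊓ KK G (pull ℝ a) (A ∩ B) ∅ j) := ⟨_, rfl⟩
  obtain ⟨K2, hK2⟩ : ∃ K, K = uc (BB G (pull ℝ a) B ∅ j ⊓ KK G (pull ℝ a) (A ∩ B) ∅ j) := ⟨_, rfl⟩
  obtain ⟨C, hC⟩ : ∃ K, K = uc (KK G (pull ℝ a) (A ∩ B) ∅ j) := ⟨_, rfl⟩
  obtain ⟨Nb, hNb⟩ : ∃ K, K = uc (BB G (pull ℝ a) (A ∩ B) ∅ j) := ⟨_, rfl⟩
  have hcX : (0 : ℝ) < Fintype.card X := by
    rw [Nat.cast_pos]
    exact Fintype.card_pos
  have hN0' : (0 : ℝ) < N0 := by exact_mod_cast hN0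
  have hd : ∀ V' : Submodule ℝ (Finset V × X → ℝ), Hom (cl V e) V' → Nb ≤ V' → V' ≤ C →
      (finrank ℝ ↥(K1 ⊓ V') : ℝ) + finrank ℝ ↥(K2 ⊓ V') ≤
        finrank ℝ V' + ((finrank ℝ Nb : ℝ) + 2 * (Fintype.card X / N0)) := by
    intro V' hV' _ _
    have d1 := hdA (V := V) half hb hb0 P1.inv P1.sgn P1.sgn_self hA hAN heS N0 j s3 V' hV'
    have d2 := hdA (V := V) half hb hb0 P1.inv P1.sgn P1.sgn_self hB hBN heS N0 j s4 V' hV'
    rw [← hK1, ← hNb] at d1
    rw [← hK2, ← hNb] at d2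
    have d1' : (2 * N0 * finrank ℝ ↥(K1 ⊓ V') : ℝ) ≤ N0 * finrank ℝ V' + N0 * finrank ℝ Nb + 2 * Fintype.card X := by
      exact_mod_cast d1
    have d2' : (2 * N0 * finrank ℝ ↥(K2 ⊓ V') : ℝ) ≤ N0 * finrank ℝ V' + N0 * finrank ℝ Nb + 2 * Fintype.card X := by
      exact_mod_cast d2
    have e1 : (N0 : ℝ) * (Fintype.card X / N0) = Fintype.card X := by field_simp
    refine le_of_mul_le_mul_left (a := (2 : ℝ) * N0) ?_ (by positivity)
    nlinarith [d1', d2', e1]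
  obtain ⟨n, hn⟩ := free_bound (cl V e) C K1 K2 Nb (by
      rw [hK1, hC]; exact fun u hu => hu.2) (by rw [hC]; exact KK_hom heS j) (by rw [hNb]; exact BB_hom heS j)
    (by rw [hK1, hNb]; exact fun u hu => ⟨BB_mono Set.inter_subset_left _ hu, (BB_le_ZZ _ _ _ _ _ hu).1⟩)
    (by rw [hK2, hNb]; exact fun u hu => ⟨BB_mono Set.inter_subset_right _ hu, (BB_le_ZZ _ _ _ _ _ hu).1⟩)
    _ hd (Fintype.card X / N0) (by positivity)
  obtain ⟨F, iF, iFn, τ, eF', sgF, t1, t2, t3, t4, t5, t6⟩ := exists_free (E := E) n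
  have hsol := hn F τ eF' t1 t2 t3 t4 t5
  -- the final set
  let bA : V → X × F → X × F := fun v z => (a v z.1, z.2)
  let bB : V → X × F → X × F := fun v z => (a v z.1, τ (e (a v z.1)) (τ (e z.1) z.2))
  let bY : V → X × F → X × F := fun v z => if v ∈ A then bA v z else bB v z
  let Θ : X × F → X × F := fun z => (z.1, τ (e z.1) z.2)
  have hΘ : ∀ v z, Θ (bA v z) = bB v (Θ z) := by
    intro v z
    show (a v z.1, τ (e (a v z.1)) z.2) = (a v z.1, τ (e (a v z.1)) (τ (e z.1) (τ (e z.1) z.2)))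
    rw [t1]
  have hΘΘ : ∀ z, Θ (Θ z) = z := by
    intro z
    show (z.1, τ (e z.1) (τ (e z.1) z.2)) = z
    rw [t1]
  have hYA : ∀ v ∈ A, bY v = bA v := fun v hv => funext fun z => if_pos hv
  have hYB : ∀ v ∈ B, bY v = bB v := by
    intro v hv
    funext z
    by_cases hvA : v ∈ A
    · rw [hYA v hvA]
      show (a v z.1, z.2) = (a v z.1, τ (e (a v z.1)) (τ (e z.1) z.2))
      rw [heS v ⟨hvA, hv⟩, t1]
    · exact if_neg hvA
  obtain ⟨evX, x1, x2, x3⟩ := exists_ev G a k1 k2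
  have hfX := k7 evX x1 x2 x3
  have iA : ∀ v z, bA v (bA v z) = z := fun v z => by
    show (a v (a v z.1), z.2) = z
    rw [k1]
  have cA : ∀ u v, G.Adj u v → ∀ z, bA u (bA v z) = bA v (bA u z) := fun u v h z => by
    show (a u (a v z.1), z.2) = (a v (a u z.1), z.2)
    rw [k2 u v h]
  have bBe : ∀ v z, bB v z = Θ (bA v (Θ z)) := fun v z => by
    rw [hΘ, hΘΘ]
  have iB : ∀ v z, bB v (bB v z) = z := fun v z => by
    rw [bBe, bBe, hΘΘ, iA, hΘΘ]
  have cB : ∀ u v, G.Adj u v → ∀ z, bB u (bB v z) = bB v (bB u z) := fun u v h z => by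
    rw [bBe, bBe, bBe, bBe, hΘΘ, hΘΘ, cA u v h]
  have s1 := hX1 (X × F) bA (fun z g => (evX z.1 g, z.2)) iA cA (fun z => by rw [x1]) (fun z g h => by rw [x2])
    (fun z v => by rw [x3]) (fun g hg z hz => hfX g (m1 g hg) z.1 (congrArg Prod.fst hz))
  have s2 := hX2 (X × F) bB (fun z g => Θ (evX (Θ z).1 g, (Θ z).2)) iB cB
    (fun z => by rw [x1]; exact hΘΘ z) (fun z g h => by rw [x2, hΘΘ])
    (fun z v => by rw [x3])
    (fun g hg z hz => hfX g (m2 g hg) z.1 (congrArg Prod.fst hz))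
  have u1 := beta_congr (G := G) (b1 := bY) (b2 := bA) (A := A) (S := ∅)
    (fun v hv => hYA v (by simpa using hv)) (j + 1)
  have u2 := beta_congr (G := G) (b1 := bY) (b2 := bB) (A := B) (S := ∅)
    (fun v hv => hYB v (by simpa using hv)) (j + 1)
  have hfine := glue_fine G (pull ℝ bY) A B ({v0}ᶜ) (by rw [← hAB]; exact Set.subset_union_left)
    (by rw [← hAB]; exact Set.subset_union_right) (fun T hT hTU => by
      by_contra hcon
      push Not at hcon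
      obtain ⟨c1, c2⟩ := hcon
      obtain ⟨y, hy, hyA⟩ := Set.not_subset.1 c1
      obtain ⟨x, hx, hxB⟩ := Set.not_subset.1 c2
      have hxA : x ∈ A := by
        have : x ∈ A ∪ B := by rw [hAB]; exact hTU hx
        exact this.resolve_right hxB
      have hyB : y ∈ B := by
        have : y ∈ A ∪ B := by rw [hAB]; exact hTU hy
        exact this.resolve_left hyA
      exact hno x hxA hxB y hyB hyA (hT hx hy (fun h => hyA (h ▸ hxA)))) j
  rw [u1, u2] at hfine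
  have hbA : ∀ v, v ≠ v0 → ∀ z : X × F, bA v z = (a v z.1, z.2) := fun _ _ _ => rfl
  -- the boundaries of the intersection
  have w1 : finrank ℝ (BB G (pull ℝ bY) (A ∩ B) ∅ j) = Fintype.card F * finrank ℝ Nb := by
    rw [BB_congr (G := G) (b1 := bY) (b2 := bA) (fun v hv => hYA v (by
      have : v ∈ A ∩ B := by simpa using hv
      exact this.1)), ← finrank_sw, ← finrank_PV, hNb]
    have : (BB G (pull ℝ bA) (A ∩ B) ∅ j).comap (sw V X F).toLinearMap =
        PV F (uc (BB G (pull ℝ a) (A ∩ B) ∅ j)) := by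
      ext w
      exact BB_slice (y := sw V X F w) hbA hvS (by simp)
    rw [this]
  have w2 : finrank ℝ ↥((BB G (pull ℝ bY) A ∅ j ⊓ BB G (pull ℝ bY) B ∅ j) ⊓ KK G (pull ℝ bY) (A ∩ B) ∅ j) ≤
      finrank ℝ (Sol τ (cl V e) K1 K2) := by
    rw [← finrank_sw]
    refine Submodule.finrank_mono fun w hw => ?_
    obtain ⟨⟨y1, y2⟩, y3⟩ := hw
    have z1 : sw V X F w ∈ BB G (pull ℝ bA) A ∅ j := by
      rw [← BB_congr (G := G) (b1 := bY) (b2 := bA) (fun v hv => hYA v (by simpa using hv))]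
      exact y1
    have z3 : sw V X F w ∈ KK G (pull ℝ bA) (A ∩ B) ∅ j := by
      rw [← KK_congr (G := G) (b1 := bY) (b2 := bA) (fun v hv => hYA v (by
        have : v ∈ A ∩ B := by simpa using hv
        exact this.1))]
      exact y3
    have z2 : sw V X F w ∈ BB G (pull ℝ bB) B ∅ j := by
      rw [← BB_congr (G := G) (b1 := bY) (b2 := bB) (fun v hv => hYB v (by simpa using hv))]
      exact y2
    have z4 : sw V X F w ∈ KK G (pull ℝ bB) (A ∩ B) ∅ j := by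
      rw [← KK_congr (G := G) (b1 := bY) (b2 := bB) (fun v hv => hYB v (by
        have : v ∈ A ∩ B := by simpa using hv
        exact this.2))]
      exact y3
    have z5 := BB_conj (b1 := bA) (b2 := bB) Θ (fun v _ z => hΘ v z) z2
    have z6 := KK_conj (b1 := bA) (b2 := bB) Θ (fun v _ z => hΘ v z) z4
    refine ⟨fun f => ?_, fun f => ?_⟩
    · rw [hK1]
      exact ⟨(BB_slice hbA hA (by simp)).1 z1 f, (KK_slice hbA hvS (by simp)).1 z3 f⟩
    · rw [hK2]
      exact ⟨(BB_slice hbA hB (by simp)).1 z5 f, (KK_slice hbA hvS (by simp)).1 z6 f⟩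
  refine ⟨X × F, inferInstance, inferInstance, fun u => bY (u : V), fun u z => sgn (u : V) z.1, ?_, ?_, ?_, ?_, ?_⟩
  · intro u z
    show bY (u : V) (bY (u : V) z) = z
    by_cases hu : (u : V) ∈ A
    · rw [hYA _ hu, iA]
    · have : bY (u : V) = bB u := funext fun z => if_neg hu
      rw [this, iB]
  · intro u v huv z
    show bY (u : V) (bY (v : V) z) = bY (v : V) (bY (u : V) z)
    have huv' : G.Adj (u : V) v := huv
    have hu : (u : V) ∈ A ∪ B := by rw [hAB]; exact u.2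
    have hv : (v : V) ∈ A ∪ B := by rw [hAB]; exact v.2
    by_cases huA : (u : V) ∈ A
    · by_cases hvA : (v : V) ∈ A
      · rw [hYA _ huA, hYA _ hvA, cA _ _ huv']
      · have hvB := hv.resolve_left hvA
        by_cases huB : (u : V) ∈ B
        · rw [hYB _ huB, hYB _ hvB, cB _ _ huv']
        · exact absurd huv' (hno _ huA huB _ hvB hvA)
    · have huB := hu.resolve_left huA
      by_cases hvB : (v : V) ∈ B
      · rw [hYB _ huB, hYB _ hvB, cB _ _ huv']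
      · have hvA := hv.resolve_right hvB
        exact absurd huv'.symm (hno _ hvA hvB _ huB huA)
  · intro u z
    show sgn (u : V) (bY (u : V) z).1 = !(sgn (u : V) z.1)
    have : (bY (u : V) z).1 = a u z.1 := by
      show (if (u : V) ∈ A then bA u z else bB u z).1 = _
      split_ifs <;> rfl
    rw [this, k3]
  · intro u v huv z
    show sgn (u : V) (bY (v : V) z).1 = sgn (u : V) z.1
    have : (bY (v : V) z).1 = a v z.1 := by
      show (if (v : V) ∈ A then bA v z else bB v z).1 = _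
      split_ifs <;> rfl
    rw [this, k4 _ _ (fun h => huv (Subtype.ext h))]
  · have h5 := tr ↥({v0}ᶜ : Set V) V ℝ (X × F → ℝ) G (G.induce ({v0}ᶜ : Set V)) (pull ℝ bY) (fun u => (u : V))
      (Subtype.strictMono_coe _) (fun u u' => Iff.rfl) (j + 1)
    rw [Subtype.range_coe] at h5
    have h6 : beta (G.induce ({v0}ᶜ : Set V)) (pull ℝ (fun u : ↥({v0}ᶜ : Set V) => bY (u : V))) Set.univ ∅ (j + 1) =
        beta G (pull ℝ bY) ({v0}ᶜ) ∅ (j + 1) := h5.symm
    rw [h6]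
    -- arithmetic
    have hw2 : (finrank ℝ ↥((BB G (pull ℝ bY) A ∅ j ⊓ BB G (pull ℝ bY) B ∅ j) ⊓
        KK G (pull ℝ bY) (A ∩ B) ∅ j) : ℝ) ≤ Fintype.card F * ((finrank ℝ Nb : ℝ) + 2 * (Fintype.card X / N0) +
          Fintype.card X / N0) := le_trans (by exact_mod_cast w2) hsol
    rw [Fintype.card_prod] at s1 s2 ⊢
    generalize finrank ℝ ↥((BB G (pull ℝ bY) A ∅ j ⊓ BB G (pull ℝ bY) B ∅ j) ⊓
        KK G (pull ℝ bY) (A ∩ B) ∅ j) = m at hfine hw2
    rw [w1] at hfine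
    generalize beta G (pull ℝ bY) ({v0}ᶜ) ∅ (j + 1) = β at hfine ⊢
    generalize beta G (pull ℝ bA) A ∅ (j + 1) = β1 at hfine s1
    generalize beta G (pull ℝ bB) B ∅ (j + 1) = β2 at hfine s2
    generalize finrank ℝ Nb = d at hfine hw2
    have hx : (N0 : ℝ) * m ≤ N0 * (Fintype.card F * d) + 3 * (Fintype.card X * Fintype.card F) := by
      have e1 : (N0 : ℝ) * (Fintype.card X / N0) = Fintype.card X := by field_simp
      have := mul_le_mul_of_nonneg_left hw2 hN0'.le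
      refine this.trans (le_of_eq ?_)
      have e2 : (N0 : ℝ) * (Fintype.card F * ((d : ℝ) + 2 * (Fintype.card X / N0) + Fintype.card X / N0)) =
        N0 * (Fintype.card F * d) + 3 * (Fintype.card F * (N0 * (Fintype.card X / N0))) := by ring
      rw [e2, e1]; ring
    have hx' : N0 * m ≤ N0 * (Fintype.card F * d) + 3 * (Fintype.card X * Fintype.card F) := by exact_mod_cast hx
    have hy : N0 * (m - Fintype.card F * d) ≤ 3 * (Fintype.card X * Fintype.card F) := by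
      rw [Nat.mul_sub]; omega
    have hz := Nat.mul_le_mul_left N0 hfine
    rw [Nat.mul_add, Nat.mul_add] at hz
    have hz2 : N0 * β ≤ 5 * (Fintype.card X * Fintype.card F) := by omega
    rw [hN0e, mul_assoc] at hz2
    have hz3 := Nat.le_of_mul_le_mul_left hz2 (by norm_num)
    refine le_trans (Nat.mul_le_mul_right β (Nat.le_succ N)) hz3

end Pool.Agent.W5h83.GT
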